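import Pool.Agent.H12.LS.Cell

open MeasureTheory Filter Topology Set Metric
open scoped ENNReal NNReal

namespace Pool.Agent.H12.LS

open Pool.Agent.H92.Q

variable {N : ℕ}

/-- the half-open cubes of a grid with side `h` -/
def Kb (R h : ℝ) {n : ℕ} (i : Fin N → Fin n) : Set (E N) :=
  ⋂ j, (fun x : E N => x j) ⁻¹' Ico (-R + h * (i j : ℕ)) (-R + h * (i j : ℕ) + h)

theorem mem_Kb {R h : ℝ} {n : ℕ} {i : Fin N → Fin n} {x : E N} :
    x ∈ Kb R h i ↔ ∀ j, -R + h * (i j : ℕ) ≤ x j ∧ x j < -R + h * (i j : ℕ) + h := by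
  simp [Kb]

theorem Kb_conv (R h : ℝ) {n : ℕ} (i : Fin N → Fin n) : Convex ℝ (Kb R h i) := by
  refine convex_iInter fun j => ?_
  exact (convex_Ico _ _).is_linear_preimage ⟨fun _ _ => rfl, fun _ _ => rfl⟩

theorem Kb_meas (R h : ℝ) {n : ℕ} (i : Fin N → Fin n) : MeasurableSet (Kb R h i) := by
  refine MeasurableSet.iInter fun j => measurableSet_Ico.preimage ?_
  fun_prop

theorem Kb_diam {R h : ℝ} (hh : 0 < h) {n : ℕ} (i : Fin N → Fin n) {x y : E N} (hx : x ∈ Kb R h i)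
    (hy : y ∈ Kb R h i) : ‖x - y‖ ≤ N * h := by
  rw [mem_Kb] at hx hy
  have h1 : ‖x - y‖ ^ 2 ≤ (N * h) ^ 2 := by
    rw [EuclideanSpace.norm_sq_eq]
    have h2 : ∀ j : Fin N, ‖(x - y) j‖ ^ 2 ≤ h ^ 2 := fun j => by
      have e : (x - y) j = x j - y j := rfl
      rw [e, Real.norm_eq_abs]
      refine pow_le_pow_left₀ (abs_nonneg _) ?_ 2
      rw [abs_le]
      constructor <;> linarith [(hx j).1, (hx j).2, (hy j).1, (hy j).2]
    refine (Finset.sum_le_sum fun j _ => h2 j).trans ?_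
    rw [Finset.sum_const, Finset.card_univ, Fintype.card_fin, nsmul_eq_mul, mul_pow]
    refine mul_le_mul_of_nonneg_right ?_ (by positivity)
    have : (N : ℝ) ≤ (N : ℝ) ^ 2 := by
      exact_mod_cast Nat.le_self_pow two_ne_zero N
    exact this
  exact (abs_le_of_sq_le_sq' h1 (by positivity)).2

theorem Kb_bdd {R h : ℝ} (hh : 0 < h) {n : ℕ} (i : Fin N → Fin n) : Bornology.IsBounded (Kb R h i) :=
  Metric.isBounded_iff.2 ⟨N * h, fun x hx y hy => by rw [dist_eq_norm]; exact Kb_diam hh i hx hy⟩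

theorem Kb_vol {R h : ℝ} (hh : 0 < h) {n : ℕ} (i : Fin N → Fin n) : volume (Kb R h i) ≠ 0 := by
  set U : Set (E N) :=
    ⋂ j, (fun x : E N => x j) ⁻¹' Ioo (-R + h * (i j : ℕ)) (-R + h * (i j : ℕ) + h)
  have hU : IsOpen U := by
    refine isOpen_iInter_of_finite fun j => isOpen_Ioo.preimage ?_
    fun_prop
  have hne : U.Nonempty := by
    refine ⟨WithLp.toLp 2 fun j => -R + h * (i j : ℕ) + h / 2, ?_⟩
    simp only [U, mem_iInter, mem_preimage, mem_Ioo]
    intro j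
    constructor <;> linarith
  have hs : U ⊆ Kb R h i := iInter_mono fun j => preimage_mono Ioo_subset_Ico_self
  exact ((hU.measure_pos volume hne).trans_le (measure_mono hs)).ne'

theorem Kb_disj {R h : ℝ} (hh : 0 < h) {n : ℕ} :
    Pairwise (Function.onFun Disjoint fun i : Fin N → Fin n => Kb R h i) := by
  intro i i' hne
  rw [Function.onFun, Set.disjoint_left]
  intro x hx hx'
  rw [mem_Kb] at hx hx'
  refine hne (funext fun j => Fin.ext ?_)
  obtain ⟨a1, a2⟩ := hx j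
  obtain ⟨b1, b2⟩ := hx' j
  have c1 : ((i j : ℕ) : ℝ) < (i' j : ℕ) + 1 := by
    have : h * ((i j : ℕ) : ℝ) < h * ((i' j : ℕ) + 1) := by linarith
    exact lt_of_mul_lt_mul_left this hh.le
  have c2 : ((i' j : ℕ) : ℝ) < (i j : ℕ) + 1 := by
    have : h * ((i' j : ℕ) : ℝ) < h * ((i j : ℕ) + 1) := by linarith
    exact lt_of_mul_lt_mul_left this hh.le
  have d1 : (i j : ℕ) < (i' j : ℕ) + 1 := by exact_mod_cast c1
  have d2 : (i' j : ℕ) < (i j : ℕ) + 1 := by exact_mod_cast c2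
  omega

theorem Kb_cover {R h : ℝ} (hh : 0 < h) {n : ℕ} (hn : h * n = 2 * R) {x : E N} (hx : x ∈ ball (0 : E N) R) :
    x ∈ ⋃ i : Fin N → Fin n, Kb R h i := by
  rw [mem_ball_zero_iff] at hx
  have hc : ∀ j, |x j| < R := fun j => by
    have := PiLp.norm_apply_le x j
    rw [Real.norm_eq_abs] at this
    linarith
  have hlt : ∀ j, ⌊(x j + R) / h⌋₊ < n := fun j => by
    have h1 := abs_lt.1 (hc j)
    rw [Nat.floor_lt (div_nonneg (by linarith) hh.le), div_lt_iff₀ hh]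
    linarith
  rw [mem_iUnion]
  refine ⟨fun j => ⟨⌊(x j + R) / h⌋₊, hlt j⟩, ?_⟩
  rw [mem_Kb]
  intro j
  have h1 := abs_lt.1 (hc j)
  have h0 : 0 ≤ (x j + R) / h := div_nonneg (by linarith) hh.le
  have h2 := Nat.floor_le h0
  have h3 := Nat.lt_floor_add_one ((x j + R) / h)
  rw [le_div_iff₀ hh] at h2
  rw [div_lt_iff₀ hh] at h3
  simp only
  constructor <;> linarith

theorem grid_est {R h : ℝ} (hh : 0 < h) {n : ℕ} (hn : h * n = 2 * R) {Ω : Set (E N)} (hΩ : Ω ⊆ ball 0 R)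
    {φ : E N → ℝ} (hφ : Test Ω φ) :
    ∫ x, φ x ^ 2 ≤ 2 * ((N * h) ^ 2 * 2 ^ N) * (∫ x, ‖gradient φ x‖ ^ 2) +
      ∑ i : Fin N → Fin n, 2 * (∫ x in Kb R h i, φ x) ^ 2 / (volume (Kb R h i)).toReal := by
  have i2 : Integrable (fun x => φ x ^ 2) volume :=
    ((hφ.cont.pow 2).integrable_of_hasCompactSupport (by
      have := hφ.2.1.mul_left (f := φ)
      simpa [sq, Pi.mul_def] using this))
  have i4 : Integrable (fun x => ‖gradient φ x‖ ^ 2) volume :=
    (hφ.memLp_grad 2).integrable_norm_pow (by norm_num)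
  have e1 : ∫ x, φ x ^ 2 = ∑ i : Fin N → Fin n, ∫ x in Kb R h i, φ x ^ 2 := by
    rw [← integral_iUnion_fintype (fun i => Kb_meas R h i) (Kb_disj hh) fun i => i2.integrableOn]
    refine (setIntegral_eq_integral_of_forall_compl_eq_zero fun x hx => ?_).symm
    have : x ∉ Ω := fun hx' => hx (Kb_cover hh hn (hΩ hx'))
    simp [hφ.zero_off this]
  have e2 : ∑ i : Fin N → Fin n, ∫ x in Kb R h i, ‖gradient φ x‖ ^ 2 ≤ ∫ x, ‖gradient φ x‖ ^ 2 := by
    rw [← integral_iUnion_fintype (fun i => Kb_meas R h i) (Kb_disj hh) fun i => i4.integrableOn]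
    exact setIntegral_le_integral i4 (Eventually.of_forall fun _ => by positivity)
  rw [e1]
  refine (Finset.sum_le_sum fun i _ => cell (Ω := Ω) (Kb_conv R h i) (Kb_meas R h i) (Kb_bdd hh i)
    (Kb_vol hh i) (fun x hx y hy => Kb_diam hh i hx hy) hφ).trans ?_
  rw [Finset.sum_add_distrib, ← Finset.mul_sum]
  have : 0 ≤ 2 * ((N * h) ^ 2 * 2 ^ N) := by positivity
  gcongr

theorem norm1_of_ae {p : P N} {φ : E N → ℝ} (h : (p.1 : E N → ℝ) =ᵐ[volume] φ) :
    ‖p.1‖ ^ 2 = ∫ x, φ x ^ 2 := by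
  rw [← real_inner_self_eq_norm_sq, L2.inner_def]
  refine integral_congr_ae ?_
  filter_upwards [h] with x hx
  rw [hx, real_inner_self_eq_norm_sq, Real.norm_eq_abs, sq_abs]

theorem stA1 : StA1 := by
  intro N hN Ω hb
  obtain ⟨R, hR, hΩ⟩ : ∃ R : ℝ, 0 < R ∧ Ω ⊆ ball (0 : E N) R := hb.subset_ball_lt 0 0
  have hN' : (0 : ℝ) < N := by exact_mod_cast (by omega : 0 < N)
  refine ⟨2 ^ (N + 1) * (N * (2 * R)), by positivity, fun n hn => ?_⟩
  have hn' : (0 : ℝ) < n := by exact_mod_cast hn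
  set h : ℝ := 2 * R / n with hh
  have hh0 : 0 < h := by positivity
  have hhn : h * n = 2 * R := by rw [hh]; field_simp
  let I : (Fin N → Fin n) → Lp ℝ 2 (volume : Measure (E N)) := fun i =>
    indicatorConstLp 2 (Kb_meas R h i) (Kb_bdd hh0 i).measure_lt_top.ne (1 : ℝ)
  refine ⟨fun p => WithLp.toLp 2 fun k => inner ℝ p.1 (I (finFunctionFinEquiv.symm k)), ?_, ?_, ?_⟩
  · refine (PiLp.continuous_toLp 2 _).comp (continuous_pi fun k => ?_)
    exact continuous_fst.inner continuous_const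
  · intro p
    ext k
    simp [inner_neg_left]
  · intro p hp hL
    have hz : ∀ i, inner ℝ p.1 (I i) = 0 := fun i => by
      have := congrArg (fun v : EuclideanSpace ℝ (Fin (n ^ N)) => v (finFunctionFinEquiv i)) hL
      simpa using this
    have key : ‖p.1‖ ^ 2 ≤ 2 * ((N * h) ^ 2 * 2 ^ N) * ‖p.2‖ ^ 2 +
        ∑ i : Fin N → Fin n, 2 * (inner ℝ p.1 (I i)) ^ 2 / (volume (Kb R h i)).toReal := by
      rw [H10_eq] at hp
      refine le_of_dense (S := TP Ω) (f := fun p => ‖p.1‖ ^ 2)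
        (g := fun p => 2 * ((N * h) ^ 2 * 2 ^ N) * ‖p.2‖ ^ 2 +
          ∑ i : Fin N → Fin n, 2 * (inner ℝ p.1 (I i)) ^ 2 / (volume (Kb R h i)).toReal)
        ?_ ?_ ?_ hp
      · exact (continuous_fst.norm.pow 2).continuousOn
      · refine Continuous.continuousOn ?_
        refine (continuous_const.mul (continuous_snd.norm.pow 2)).add
          (continuous_finsetSum _ fun i _ => ?_)
        exact (continuous_const.mul ((continuous_fst.inner continuous_const).pow 2)).div_const _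
      · rintro p ⟨φ, hφ, h1, h2⟩
        have e : ∀ i, inner ℝ p.1 (I i) = ∫ x in Kb R h i, φ x := fun i => by
          rw [real_inner_comm, L2.inner_indicatorConstLp_one]
          exact integral_congr_ae (ae_restrict_of_ae h1)
        simp only [e]
        rw [norm1_of_ae h1, norm2_of_ae h2]
        exact grid_est hh0 hhn hΩ hφ
    simp only [hz] at key
    simp only [ne_eq, OfNat.ofNat_ne_zero, not_false_eq_true, zero_pow, mul_zero, zero_div,
      Finset.sum_const_zero, add_zero] at key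
    have e : 2 ^ (N + 1) * (N * (2 * R)) / n = 2 ^ (N + 1) * (N * h) := by rw [hh]; ring
    rw [e]
    refine (abs_le_of_sq_le_sq' (key.trans ?_) (by positivity)).2
    have h1 : (1 : ℝ) ≤ 2 ^ (N + 1) := one_le_pow₀ (by norm_num)
    have h2 : (0 : ℝ) ≤ (N * h) ^ 2 * ‖p.2‖ ^ 2 := by positivity
    calc 2 * ((N * h) ^ 2 * 2 ^ N) * ‖p.2‖ ^ 2 = 2 ^ (N + 1) * 1 * ((N * h) ^ 2 * ‖p.2‖ ^ 2) := by ring
      _ ≤ 2 ^ (N + 1) * 2 ^ (N + 1) * ((N * h) ^ 2 * ‖p.2‖ ^ 2) := by gcongr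
      _ = (2 ^ (N + 1) * (N * h) * ‖p.2‖) ^ 2 := by ring

end Pool.Agent.H12.LS
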