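import Pool.Agent.H12.LS.Stub
import Pool.Graph.R_pool_sql_team_seeded_2aa45f1a.Q170.ConvPoinc

open MeasureTheory Filter Topology Set Metric
open scoped ENNReal NNReal

namespace Pool.Agent.H12.LS

open Pool.Agent.H92.Q

variable {N : ℕ}

theorem lint_sq {μ : Measure (E N)} {f : E N → ℝ} (h : Integrable (fun x => f x ^ 2) μ) :
    ∫⁻ x, ‖f x‖ₑ ^ 2 ∂μ = ENNReal.ofReal (∫ x, f x ^ 2 ∂μ) := by
  rw [ofReal_integral_eq_lintegral_ofReal h (Eventually.of_forall fun _ => sq_nonneg _)]
  refine lintegral_congr fun x => ?_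
  rw [← sq_abs, ENNReal.ofReal_pow (abs_nonneg _), ← Real.norm_eq_abs, ofReal_norm]

theorem cell {K Ω : Set (E N)} (hK : Convex ℝ K) (hm : MeasurableSet K)
    (hb : Bornology.IsBounded K) (h0 : volume K ≠ 0) {d : ℝ} (hd : ∀ x ∈ K, ∀ y ∈ K, ‖x - y‖ ≤ d)
    {φ : E N → ℝ} (h : Test Ω φ) :
    ∫ x in K, φ x ^ 2 ≤ 2 * (d ^ 2 * 2 ^ N) * (∫ x in K, ‖gradient φ x‖ ^ 2) +
      2 * (∫ x in K, φ x) ^ 2 / (volume K).toReal := by
  have hae : interior K =ᵐ[volume] K :=
    interior_ae_eq_of_null_frontier (hK.addHaar_frontier volume)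
  have hr : volume.restrict (interior K) = volume.restrict K := Measure.restrict_congr_set hae
  have hfin : volume K ≠ ∞ := hb.measure_lt_top.ne
  have : IsFiniteMeasure (volume.restrict K) := ⟨by
    rw [Measure.restrict_apply_univ]; exact hb.measure_lt_top⟩
  have hne : (interior K).Nonempty := by
    rw [nonempty_iff_ne_empty]
    intro he
    rw [he] at hae
    exact h0 (by rw [← measure_congr hae, measure_empty])
  set V : ℝ := (volume K).toReal with hV
  have V0 : 0 < V := ENNReal.toReal_pos h0 hfin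
  set m : ℝ := (∫ x in K, φ x) / V with hmdef
  have i1 : Integrable φ (volume.restrict K) :=
    (h.cont.integrable_of_hasCompactSupport h.2.1).restrict
  have i2 : Integrable (fun x => φ x ^ 2) (volume.restrict K) :=
    ((h.cont.pow 2).integrable_of_hasCompactSupport (by
      have := h.2.1.mul_left (f := φ)
      simpa [sq, Pi.mul_def] using this)).restrict
  have i3 : Integrable (fun x => (φ x - m) ^ 2) (volume.restrict K) := by
    have : (fun x => (φ x - m) ^ 2) = fun x => φ x ^ 2 - 2 * m * φ x + m ^ 2 := by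
      funext x; ring
    rw [this]
    exact (i2.sub (i1.const_mul _)).add (integrable_const _)
  have z : ∫ x in interior K, (φ x - m) = 0 := by
    rw [hr, integral_sub i1 (integrable_const _), integral_const]
    simp only [measureReal_restrict_apply_univ, smul_eq_mul]
    rw [hmdef, Measure.real, ← hV]
    field_simp
    ring
  have P := Pool.Agent.Q170.ConvPoinc.poincare (n := N) (Ω := interior K) isOpen_interior
    hK.interior (hb.subset interior_subset) hne (u := fun x => φ x - m)
    ((h.cd1.sub contDiff_const).contDiffOn) (by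
      rw [hr, lint_sq i3]; exact ENNReal.ofReal_lt_top) z (d := d)
    (fun x hx y hy => hd x (interior_subset hx) y (interior_subset hy))
  have i4 : Integrable (fun x => ‖gradient φ x‖ ^ 2) (volume.restrict K) := by
    have := (h.memLp_grad 2).integrable_norm_pow (by norm_num)
    exact this.restrict
  have e4 : ∫⁻ x in interior K, ‖fderiv ℝ (fun x => φ x - m) x‖ₑ ^ 2 =
      ENNReal.ofReal (∫ x in K, ‖gradient φ x‖ ^ 2) := by
    rw [hr, ofReal_integral_eq_lintegral_ofReal i4 (Eventually.of_forall fun _ => sq_nonneg _)]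
    refine lintegral_congr fun x => ?_
    rw [fderiv_sub_const, ENNReal.ofReal_pow (norm_nonneg _), norm_grad, ofReal_norm]
  rw [e4, hr, lint_sq i3, show (2 : ℝ≥0∞) ^ N = ENNReal.ofReal (2 ^ N) by
      rw [ENNReal.ofReal_pow (by norm_num)]; simp,
    ← ENNReal.ofReal_mul (by positivity), ← ENNReal.ofReal_mul (by positivity),
    ENNReal.ofReal_le_ofReal_iff (by
      have : 0 ≤ ∫ x in K, ‖gradient φ x‖ ^ 2 := integral_nonneg fun _ => by positivity
      positivity)] at P
  have k1 : ∫ x in K, φ x ^ 2 ≤ ∫ x in K, (2 * (φ x - m) ^ 2 + 2 * m ^ 2) := by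
    refine integral_mono i2 ((i3.const_mul 2).add (integrable_const _)) fun x => ?_
    simp only
    nlinarith [sq_nonneg (φ x - m - m)]
  rw [integral_add (i3.const_mul 2) (integrable_const _), integral_const_mul, integral_const] at k1
  simp only [measureReal_restrict_apply_univ, smul_eq_mul] at k1
  rw [Measure.real, ← hV] at k1
  have k2 : V * (2 * m ^ 2) = 2 * (∫ x in K, φ x) ^ 2 / V := by
    rw [hmdef]; field_simp
  rw [k2] at k1
  linarith

end Pool.Agent.H12.LS
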