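import Mathlib

open MeasureTheory Filter Topology Set Metric
open scoped ENNReal NNReal

namespace Pool.Agent.H12.LS

/-- C2: counting with general integer parts and every exponent below the natural one -/
def StC2 : Prop := ∀ (η A r c a b : ℝ) (W : ℕ → ℕ), 0 < η → 0 < A → 0 < r → 0 < c → 0 < a →
  0 < b → b < 1 / ((η + 1) * r) → (∀ n, 1 ≤ W n) → (∀ n : ℕ, (W n : ℝ) ≤ 2 * ((n : ℝ) + 1) ^ η) →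
  ∃ L0 : ℝ, ∀ L : ℕ → ℝ≥0∞, (∀ k : ℕ, 1 ≤ k → ENNReal.ofReal (c * (k : ℝ) ^ a) ≤ L k) →
    ∀ Λ : ℝ, L0 ≤ Λ → ∃ T : Finset ℝ,
    (∀ l ∈ T, 0 < l ∧ l ≤ Λ ∧ (∃ S : Finset ℕ, S.Nonempty ∧
      l = A * (∑ n ∈ S, ((W n : ℝ) + (1 / 2) ^ (n + 2))) ^ r) ∧
      ∀ k : ℕ, 1 ≤ k → L k ≠ ENNReal.ofReal l) ∧ Real.exp (Λ ^ b) ≤ (T.card : ℝ)

/-- P: a sequence of disjoint balls in the unit ball that accumulates only at 0, with radii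
`c (n+1)^(-β)`, for every `β > 1/N` -/
def StP : Prop := ∀ (N : ℕ), 2 ≤ N → ∀ β : ℝ, 1 / (N : ℝ) < β →
  ∃ (c : ℝ) (x : ℕ → EuclideanSpace ℝ (Fin N)), 0 < c ∧
    (∀ m n : ℕ, m < n → c * ((m : ℝ) + 1) ^ (-β) + c * ((n : ℝ) + 1) ^ (-β) ≤ dist (x m) (x n)) ∧
    (∀ n : ℕ, ‖x n‖ + c * ((n : ℝ) + 1) ^ (-β) < 1) ∧
    ∀ δ : ℝ, 0 < δ → ∃ M : ℕ, ∀ n : ℕ, M ≤ n → ‖x n‖ + c * ((n : ℝ) + 1) ^ (-β) < δ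

end Pool.Agent.H12.LS
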