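import Pool.Agent.H12.LS.Uni
import Pool.Agent.H12.LS.Stub2

open MeasureTheory Filter Topology Set Metric
open scoped ENNReal NNReal

namespace Pool.Agent.H12.LS

open Pool.Agent.H92.Q

variable {N : ℕ}

theorem Low.aff {A B : Set (E N)} {q C a R : ℝ} {v : E N} (hC : Sob B q C) (h : Low A q a)
    (hR : R ≠ 0) (hAB : ∀ x, R • x + v ∈ B → x ∈ A) :
    Low B q (a * |R| ^ ((N : ℝ) - 2 - 2 * N / q)) := by
  have hq : 0 < q := by linarith [hC.q1]
  have hR' : 0 < |R| := abs_pos.mpr hR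
  intro p hp
  refine le_of_dense (f := fun r => a * |R| ^ ((N : ℝ) - 2 - 2 * N / q) * nq q r ^ 2)
    (g := fun r => ‖r.2‖ ^ 2) (continuousOn_const.mul ((hC.cont univ con_id).pow 2))
    (by fun_prop) ?_ hp
  rintro r ⟨ψ, hψ, e1, e2⟩
  have T : Test A fun x => ψ (R • x + v) := ⟨hψ.1.comp (by fun_prop),
    hψ.2.1.comp_homeomorph ((Homeomorph.smulOfNeZero R hR).trans (Homeomorph.addRight v)),
    fun x hx => hAB x (hψ.2.2
      (tsupport_comp_subset_preimage ψ (f := fun x => R • x + v) (by fun_prop) hx))⟩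
  have k := h _ T.tp_H
  have g : ∀ x, ‖gradient (fun x => ψ (R • x + v)) x‖ ^ 2 =
      R ^ 2 * ‖gradient ψ (R • x + v)‖ ^ 2 :=
    fun x => by
    rw [grad_of (φ := fun x => ψ (R • x + v)) (v := R • gradient ψ (R • x + v))
      ((hψ.diff _).hasFDerivAt.comp x (((hasFDerivAt_id x).fun_const_smul R).add_const v)) fun y => by
        simp [inner_smul_left], norm_smul, mul_pow, Real.norm_eq_abs, sq_abs]
  have ic : ∀ f : E N → ℝ, ∫ x, f (R • x + v) = |(R ^ N)⁻¹| * ∫ x, f x := fun f => by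
    have := Measure.integral_comp_smul volume (fun x => f (x + v)) R
    simp only [finrank_euclideanSpace, Fintype.card_fin, smul_eq_mul] at this
    rw [this, integral_add_right_eq_self]
  have n1 : nq q (tp fun x => ψ (R • x + v)) ^ q = |R| ^ (-(N : ℝ)) * nq q r ^ q := by
    rw [nq, nq, nf_congr T.tp1, nf_congr e1, nf_pow hq _ (con_id.memLp _ (T.memLp _)),
      nf_pow hq _ (con_id.memLp _ (hψ.memLp _)), Measure.restrict_univ,
      ic (fun x => |ψ x| ^ q)]
    simp [Real.rpow_neg hR'.le, abs_inv, abs_pow]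
  have n2 : nq q (tp fun x => ψ (R • x + v)) ^ 2 = |R| ^ (-(2 * N / q)) * nq q r ^ 2 := by
    have := congrArg (fun t => t ^ (2 / q)) n1
    rw [Real.mul_rpow (by positivity) (Real.rpow_nonneg (nf_nonneg _ _ _ _) _),
      ← Real.rpow_mul (nf_nonneg _ _ _ _), ← Real.rpow_mul (nf_nonneg _ _ _ _),
      ← Real.rpow_mul hR'.le, mul_div_cancel₀ _ hq.ne', Real.rpow_two, Real.rpow_two] at this
    rw [this]; congr 2; ring
  rw [norm2_of_ae T.tp2, n2] at k
  simp only [g] at k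
  rw [integral_const_mul, ic (fun x => ‖gradient ψ x‖ ^ 2), ← norm2_of_ae e2] at k
  have e : |R| ^ ((N : ℝ) - 2 - 2 * N / q) = |R| ^ (-(2 * N / q)) * (|R| ^ N / R ^ 2) := by
    rw [show (N : ℝ) - 2 - 2 * N / q = -(2 * N / q) + (N - 2) by ring, Real.rpow_add hR',
      Real.rpow_sub hR', Real.rpow_natCast, Real.rpow_two, sq_abs]
  simp only [abs_inv, abs_pow] at k
  have k2 := mul_le_mul_of_nonneg_left k (by positivity : 0 ≤ |R| ^ N / R ^ 2)
  simp only [e]
  refine le_trans (le_of_eq (by ring)) (k2.trans (le_of_eq ?_))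
  field_simp

theorem lam1_ball (hN : 2 ≤ N) {q : ℝ} (hq : 1 ≤ q) (hqN : ((N : ℝ) - 2) * q < 2 * N) (v : E N)
    {t : ℝ} (ht : 0 < t) :
    lam1 (ball v t) q = lam1 (ball (0 : E N) 1) q * t ^ ((N : ℝ) - 2 - 2 * N / q) := by
  obtain ⟨a0, lA, p, mp, np, ep⟩ := exists_min hN isOpen_ball (isBounded_ball (x := (0 : E N)))
    (nonempty_ball.mpr one_pos) hq hqN
  obtain ⟨b0, lB, r, mr, nr, er⟩ := exists_min hN isOpen_ball (isBounded_ball (x := v))
    (nonempty_ball.mpr ht) hq hqN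
  obtain ⟨C, hC⟩ := exists_sob hN (isBounded_ball (x := (0 : E N)) (r := 1)) hq hqN.le
  obtain ⟨C', hC'⟩ := exists_sob hN (isBounded_ball (x := v) (r := t)) hq hqN.le
  have h1 := Low.aff hC' lA (R := t) (v := v) ht.ne' (fun x hx => by
    rw [mem_ball_iff_norm, add_sub_cancel_right, norm_smul, Real.norm_eq_abs, abs_of_pos ht] at hx
    rw [mem_ball_zero_iff]
    by_contra h
    push Not at h
    nlinarith) r mr
  have h2 := Low.aff hC lB (R := t⁻¹) (v := -(t⁻¹ • v)) (inv_ne_zero ht.ne') (fun x hx => by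
    rw [mem_ball_zero_iff, ← sub_eq_add_neg, ← smul_sub, norm_smul, norm_inv, Real.norm_eq_abs,
      abs_of_pos ht, inv_mul_lt_iff₀ ht, mul_one] at hx
    rwa [mem_ball_iff_norm]) p mp
  rw [nr, er, abs_of_pos ht] at h1
  rw [np, ep, abs_inv, abs_of_pos ht, Real.inv_rpow ht.le] at h2
  have h3 : 0 < t ^ ((N : ℝ) - 2 - 2 * N / q) := by positivity
  refine le_antisymm ?_ (by linarith)
  rw [← div_le_iff₀ h3, div_eq_mul_inv]; linarith

/-- **The chain of balls** inside an arbitrary bounded open set. -/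
theorem chain2 (hP : StP) (hN : 2 ≤ N) {q : ℝ} (hq : 2 < q) (hqN : ((N : ℝ) - 2) * q < 2 * N)
    {U : Set (E N)} (oU : IsOpen U) (bU : Bornology.IsBounded U) (nU : U.Nonempty)
    {β κ : ℝ} (hβ : 1 / (N : ℝ) < β) (hκ : κ = (2 * N / q - N + 2) * (q / (q - 2))) :
    ∃ Ω ⊆ U, IsOpen Ω ∧ volume (U \ Ω) = 0 ∧ ∃ (W : ℕ → ℕ) (A : ℝ), 0 < A ∧ (∀ n, 1 ≤ W n) ∧
      (∀ n : ℕ, (W n : ℝ) ≤ 2 * ((n : ℝ) + 1) ^ (β * κ)) ∧ ∀ S : Finset ℕ, S.Nonempty →
        ∃ p : P N, IsEigen Ω q (A * (∑ n ∈ S, ((W n : ℝ) + (1 / 2) ^ (n + 2))) ^ ((q - 2) / q)) p ∧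
          ∀ᵐ x, 0 ≤ p.1 x := by
  have hq1 : 1 ≤ q := by linarith
  have hq0 : 0 < q := by linarith
  have : Nontrivial (E N) := Module.nontrivial_of_finrank_pos (R := ℝ) (by simp; omega)
  obtain ⟨c, xx, c0, px1, px2, px3⟩ := hP N hN β hβ
  have N0 : (0 : ℝ) < N := by positivity
  have β0 : 0 < β := lt_trans (by positivity) hβ
  obtain ⟨z, hz⟩ := nU
  obtain ⟨τ, τ0, hτ⟩ : ∃ τ : ℝ, 0 < τ ∧ ball z τ ⊆ U := Metric.isOpen_iff.mp oU z hz
  set γ : ℝ := (N : ℝ) - 2 - 2 * N / q with hγ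
  have γ0 : γ < 0 := by rw [hγ, sub_neg, lt_div_iff₀ hq0]; exact hqN
  have hκ' : κ = -γ * (q / (q - 2)) := by rw [hκ, hγ]; ring
  have κ0 : 0 < κ := by
    have : 0 < q / (q - 2) := div_pos hq0 (by linarith)
    rw [hκ']; exact mul_pos (by linarith) this
  set W : ℕ → ℕ := fun n => ⌈((n : ℝ) + 1) ^ (β * κ)⌉₊ with hW
  have n1 : ∀ n : ℕ, (1 : ℝ) ≤ (n : ℝ) + 1 := fun n => by
    have := Nat.cast_nonneg (α := ℝ) n; linarith
  have W1 : ∀ n : ℕ, (1 : ℝ) ≤ ((n : ℝ) + 1) ^ (β * κ) := fun n =>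
    Real.one_le_rpow (n1 n) (by positivity)
  have W2 : ∀ n : ℕ, ((n : ℝ) + 1) ^ (β * κ) ≤ W n := fun n => Nat.le_ceil _
  have W3 : ∀ n : ℕ, (W n : ℝ) ≤ 2 * ((n : ℝ) + 1) ^ (β * κ) := fun n => by
    have := Nat.ceil_lt_add_one (by linarith [W1 n] : 0 ≤ ((n : ℝ) + 1) ^ (β * κ))
    have := W1 n
    simp only [hW]
    linarith
  have W4 : ∀ n, 1 ≤ W n := fun n => by
    have := (W1 n).trans (W2 n)
    exact_mod_cast this
  set v : ℕ → ℝ := fun n => (W n : ℝ) + (1 / 2) ^ (n + 2) with hv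
  have v_ge : ∀ n : ℕ, ((n : ℝ) + 1) ^ (β * κ) ≤ v n := fun n => by
    have : (0 : ℝ) ≤ (1 / 2) ^ (n + 2) := by positivity
    have := W2 n
    simp only [hv]; linarith
  have v_pos : ∀ n, 0 < v n := fun n => lt_of_lt_of_le (by have := W1 n; linarith) (v_ge n)
  set ρ : ℕ → ℝ := fun n => c * v n ^ (-κ⁻¹) with hρ
  have ρ0 : ∀ n, 0 < ρ n := fun n => by
    have := v_pos n
    simp only [hρ]; positivity
  have ρ1 : ∀ n : ℕ, ρ n ≤ c * ((n : ℝ) + 1) ^ (-β) := fun n => by
    simp only [hρ]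
    refine mul_le_mul_of_nonneg_left ?_ c0.le
    have := n1 n
    rw [Real.rpow_neg (v_pos n).le, Real.rpow_neg (by linarith)]
    refine inv_anti₀ (by positivity) ?_
    calc ((n : ℝ) + 1) ^ β = (((n : ℝ) + 1) ^ (β * κ)) ^ κ⁻¹ := by
          rw [← Real.rpow_mul (by linarith), mul_assoc, mul_inv_cancel₀ κ0.ne', mul_one]
      _ ≤ v n ^ κ⁻¹ := Real.rpow_le_rpow (by positivity) (v_ge n) (by positivity)
  set cc : ℕ → E N := fun n => z + τ • xx n with hcc
  set B : ℕ → Set (E N) := fun n => ball (cc n) (τ * ρ n) with hB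
  have tρ : ∀ n, 0 < τ * ρ n := fun n => mul_pos τ0 (ρ0 n)
  have dc : ∀ m n, m < n → τ * ρ m + τ * ρ n ≤ dist (cc m) (cc n) := fun m n h => by
    simp only [hcc]
    rw [dist_add_left, dist_smul₀, Real.norm_eq_abs, abs_of_pos τ0, ← mul_add]
    refine mul_le_mul_of_nonneg_left ?_ τ0.le
    have := px1 m n h
    linarith [ρ1 m, ρ1 n]
  have dB : ∀ m n, m < n → Disjoint (B m) (B n) := fun m n h => ball_disjoint_ball (dc m n h)
  have oB : ∀ n, IsOpen (B n) := fun n => isOpen_ball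
  -- all balls are close to z
  have hb1 : ∀ n : ℕ, ∀ y ∈ closedBall (cc n) (τ * ρ n),
      dist y z ≤ τ * (‖xx n‖ + c * ((n : ℝ) + 1) ^ (-β)) := fun n y hy => by
    have h1 : dist (cc n) z = τ * ‖xx n‖ := by
      simp only [hcc]
      rw [dist_eq_norm, add_sub_cancel_left, norm_smul, Real.norm_eq_abs, abs_of_pos τ0]
    have h2 := dist_triangle y (cc n) z
    have h3 : dist y (cc n) ≤ τ * ρ n := hy
    have h4 := mul_le_mul_of_nonneg_left (ρ1 n) τ0.le
    rw [mul_add]; linarith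
  have hbU : ∀ n, B n ⊆ U := fun n y hy => hτ (by
    have h1 := hb1 n y (ball_subset_closedBall hy)
    have h2 := mul_lt_mul_of_pos_left (px2 n) τ0
    rw [mem_ball]; linarith)
  -- the closed set
  set K : Set (E N) := {z} ∪ ⋃ n, closedBall (cc n) (τ * ρ n) with hK
  have cK : IsClosed K := by
    rw [← isOpen_compl_iff, isOpen_iff_mem_nhds]
    intro x hx
    have hxz : x ≠ z := fun h => hx (Or.inl h)
    have hx2 : ∀ n, x ∉ closedBall (cc n) (τ * ρ n) := fun n h =>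
      hx (Or.inr (mem_iUnion.mpr ⟨n, h⟩))
    have δ0 : 0 < dist x z / 2 := by have := dist_pos.mpr hxz; positivity
    obtain ⟨M, hM⟩ := px3 (dist x z / 2 / τ) (by positivity)
    filter_upwards [ball_mem_nhds x δ0, (Finset.range M).eventually_all.mpr fun n _ =>
      (isClosed_closedBall (x := cc n) (ε := τ * ρ n)).isOpen_compl.mem_nhds (hx2 n)] with y h1 h2
    rw [mem_compl_iff, hK, mem_union, not_or, mem_iUnion, not_exists]
    have h1' : dist y x < dist x z / 2 := h1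
    have hyz : dist x z / 2 < dist y z := by
      have := dist_triangle_left x z y
      linarith
    refine ⟨fun h => ?_, fun n hn => ?_⟩
    · rw [h, dist_self] at hyz; linarith
    · rcases lt_or_ge n M with h | h
      · exact h2 n (Finset.mem_range.mpr h) hn
      · have h3 := hb1 n y hn
        have h4 := hM n h
        rw [lt_div_iff₀ τ0] at h4
        linarith
  set R : Set (E N) := U \ K with hR
  have oR : IsOpen R := oU.sdiff cK
  have dR : ∀ n, Disjoint (B n) R := fun n => disjoint_left.mpr fun x h1 h2 =>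
    h2.2 (Or.inr (mem_iUnion.mpr ⟨n, ball_subset_closedBall h1⟩))
  have sub : (⋃ n, B n) ∪ R ⊆ U := union_subset (iUnion_subset hbU) sdiff_subset
  set σ := lam1 (ball (0 : E N) 1) q with hσ
  have σ0 : 0 < σ := (exists_min hN isOpen_ball (isBounded_ball (x := (0 : E N)))
    (nonempty_ball.mpr one_pos) hq1 hqN).1
  set p' : ℝ := q / (q - 2) with hp'
  have p0 : 0 < p' := div_pos hq0 (by linarith)
  set A : ℝ := σ ^ p' * c ^ (-κ) * τ ^ (-κ) with hA
  have A0 : 0 < A := by positivity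
  have lev : ∀ n, lam1 (B n) q ^ p' = A * v n := fun n => by
    have hw := v_pos n
    simp only [hB]
    rw [lam1_ball hN hq1 hqN _ (tρ n), ← hσ, ← hγ, Real.mul_rpow σ0.le (by
      have := tρ n; positivity), ← Real.rpow_mul (tρ n).le,
      show γ * p' = -κ by rw [hκ']; ring, Real.mul_rpow τ0.le (ρ0 n).le]
    simp only [hρ]
    rw [Real.mul_rpow c0.le (by positivity), ← Real.rpow_mul hw.le,
      show -κ⁻¹ * -κ = 1 by field_simp, Real.rpow_one, hA]
    ring
  -- solutions on finite unions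
  have fin : ∀ S : Finset ℕ, ∃ p : P N, Sol (⋃ n ∈ S, B n) q (A * ∑ n ∈ S, v n) p := by
    intro S
    induction S using Finset.induction_on with
    | empty =>
      refine ⟨0, ?_⟩
      simpa using Sol.zero (∅ : Set (E N)) hq
    | insert a S ha ih =>
      obtain ⟨p, hp⟩ := ih
      obtain ⟨r, hr⟩ := ground hN hq hqN (oB a) (isBounded_ball (x := cc a))
        (nonempty_ball.mpr (tρ a))
      rw [lev a] at hr
      refine ⟨r + p, ?_⟩
      rw [Finset.set_biUnion_insert, Finset.sum_insert ha, mul_add]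
      refine Sol.add hN hq hqN (oB a) (isOpen_biUnion fun n _ => oB n) ?_ ?_ hr hp
      · exact bU.subset (union_subset (hbU a) (iUnion₂_subset fun n _ => hbU n))
      · rw [disjoint_iUnion₂_right]
        intro n hn
        have : a ≠ n := fun h => ha (h ▸ hn)
        rcases lt_or_gt_of_ne this with h | h
        · exact dB _ _ h
        · exact (dB _ _ h).symm
  refine ⟨(⋃ n, B n) ∪ R, sub, (isOpen_iUnion oB).union oR, ?_, W, A ^ ((q - 2) / q),
    by positivity, W4, W3, fun S hS => ?_⟩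
  · refine measure_mono_null (t := {z} ∪ ⋃ n, sphere (cc n) (τ * ρ n)) ?_ ?_
    · rintro x ⟨h1, h2⟩
      rw [mem_union, not_or] at h2
      have h3 : x ∈ K := by
        by_contra h3
        exact h2.2 ⟨h1, h3⟩
      rcases h3 with h3 | h3
      · exact Or.inl h3
      · obtain ⟨n, hn⟩ := mem_iUnion.mp h3
        refine Or.inr (mem_iUnion.mpr ⟨n, ?_⟩)
        have h4 : ¬ dist x (cc n) < τ * ρ n := fun h => h2.1 (mem_iUnion.mpr ⟨n, h⟩)
        exact le_antisymm hn (not_lt.mp h4)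
    · rw [measure_union_null_iff, measure_singleton, measure_iUnion_null_iff]
      exact ⟨rfl, fun n => Measure.addHaar_sphere_of_ne_zero volume _ (tρ n).ne'⟩
  · obtain ⟨p, hp⟩ := fin S
    have hsum : 0 < ∑ n ∈ S, v n := Finset.sum_pos (fun n _ => v_pos n) hS
    have hU : (⋃ n, B n) ∪ R = (⋃ n ∈ S, B n) ∪ ((⋃ n ∈ (S : Set ℕ)ᶜ, B n) ∪ R) := by
      ext x
      simp only [mem_iUnion, mem_union, Finset.mem_coe, mem_compl_iff, exists_prop]
      constructor
      · rintro (⟨n, hn⟩ | h)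
        · by_cases h : n ∈ S
          · exact Or.inl ⟨n, h, hn⟩
          · exact Or.inr (Or.inl ⟨n, h, hn⟩)
        · exact Or.inr (Or.inr h)
      · rintro (⟨n, -, hn⟩ | ⟨n, -, hn⟩ | h)
        · exact Or.inl ⟨n, hn⟩
        · exact Or.inl ⟨n, hn⟩
        · exact Or.inr h
    have hbU' : Bornology.IsBounded ((⋃ n ∈ S, B n) ∪ ((⋃ n ∈ (S : Set ℕ)ᶜ, B n) ∪ R)) := by
      rw [← hU]; exact bU.subset sub
    have h1 := Sol.ext hN hq hqN (isOpen_biUnion fun n _ => oB n)
      ((isOpen_biUnion fun n _ => oB n).union oR) hbU'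
      (B := (⋃ n ∈ (S : Set ℕ)ᶜ, B n) ∪ R) (by
        rw [disjoint_union_right]
        constructor
        · rw [disjoint_iUnion₂_left]
          intro m hm
          rw [disjoint_iUnion₂_right]
          intro n hn
          have : m ≠ n := fun h => hn (h ▸ hm)
          rcases lt_or_gt_of_ne this with h | h
          · exact dB _ _ h
          · exact (dB _ _ h).symm
        · rw [disjoint_iUnion₂_left]
          exact fun m _ => dR m) hp
    refine ⟨p, ?_, hp.2.2.2⟩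
    rw [hU, ← Real.mul_rpow A0.le hsum.le]
    exact h1.spec hN hq hqN hbU' (by positivity)

end Pool.Agent.H12.LS
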