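import Pool.Graph.R_pool_sql_team_ae5b0c61.H92.Q6

/-!
Piece D for helper12 (MP_eb4995_an): connected sets with many eigenvalues between the first two
Lusternik-Schnirelmann values (helper95; `low_aff`, `lam1_ball` are by helper12).
-/

set_option autoImplicit false

open MeasureTheory Filter Topology Set Metric
open scoped ENNReal NNReal

namespace Pool.Agent.H12.LS.Conn

open Pool.Agent.H92.Q

variable {N : ℕ}

theorem low_aff {A B : Set (E N)} {q C a R : ℝ} {v : E N} (hC : Sob B q C) (h : Low A q a)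
    (hR : R ≠ 0) (hAB : ∀ x, R • x + v ∈ B → x ∈ A) :
    Low B q (a * |R| ^ ((N : ℝ) - 2 - 2 * N / q)) := by
  have hq : 0 < q := by linarith [hC.q1]
  have hR' : 0 < |R| := abs_pos.mpr hR
  intro p hp
  refine le_of_dense (f := fun r => a * |R| ^ ((N : ℝ) - 2 - 2 * N / q) * nq q r ^ 2)
    (g := fun r => ‖r.2‖ ^ 2) (continuousOn_const.mul ((hC.cont univ con_id).pow 2))
    (by fun_prop) ?_ hp
  rintro r ⟨ψ, hψ, e1, e2⟩
  have T : Test A fun x => ψ (R • x + v) := ⟨hψ.1.comp (by fun_prop),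
    hψ.2.1.comp_homeomorph ((Homeomorph.smulOfNeZero R hR).trans (Homeomorph.addRight v)),
    fun x hx => hAB x (hψ.2.2
      (tsupport_comp_subset_preimage ψ (f := fun x => R • x + v) (by fun_prop) hx))⟩
  have k := h _ T.tp_H
  have g : ∀ x, ‖gradient (fun x => ψ (R • x + v)) x‖ ^ 2 =
      R ^ 2 * ‖gradient ψ (R • x + v)‖ ^ 2 :=
    fun x => by
    rw [grad_of (φ := fun x => ψ (R • x + v)) (v := R • gradient ψ (R • x + v))
      ((hψ.diff _).hasFDerivAt.comp x (((hasFDerivAt_id x).fun_const_smul R).add_const v)) fun y => by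
        simp [inner_smul_left], norm_smul, mul_pow, Real.norm_eq_abs, sq_abs]
  have ic : ∀ f : E N → ℝ, ∫ x, f (R • x + v) = |(R ^ N)⁻¹| * ∫ x, f x := fun f => by
    have := Measure.integral_comp_smul volume (fun x => f (x + v)) R
    simp only [finrank_euclideanSpace, Fintype.card_fin, smul_eq_mul] at this
    rw [this, integral_add_right_eq_self]
  have n1 : nq q (tp fun x => ψ (R • x + v)) ^ q = |R| ^ (-(N : ℝ)) * nq q r ^ q := by
    rw [nq, nq, nf_congr T.tp1, nf_congr e1, nf_pow hq _ (con_id.memLp _ (T.memLp _)),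
      nf_pow hq _ (con_id.memLp _ (hψ.memLp _)), Measure.restrict_univ,
      ic (fun x => |ψ x| ^ q)]
    simp [Real.rpow_neg hR'.le, abs_inv, abs_pow]
  have n2 : nq q (tp fun x => ψ (R • x + v)) ^ 2 = |R| ^ (-(2 * N / q)) * nq q r ^ 2 := by
    have := congrArg (fun t => t ^ (2 / q)) n1
    rw [Real.mul_rpow (by positivity) (Real.rpow_nonneg (nf_nonneg _ _ _ _) _),
      ← Real.rpow_mul (nf_nonneg _ _ _ _), ← Real.rpow_mul (nf_nonneg _ _ _ _),
      ← Real.rpow_mul hR'.le, mul_div_cancel₀ _ hq.ne', Real.rpow_two, Real.rpow_two] at this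
    rw [this]; congr 2; ring
  rw [norm2_of_ae T.tp2, n2] at k
  simp only [g] at k
  rw [integral_const_mul, ic (fun x => ‖gradient ψ x‖ ^ 2), ← norm2_of_ae e2] at k
  have e : |R| ^ ((N : ℝ) - 2 - 2 * N / q) = |R| ^ (-(2 * N / q)) * (|R| ^ N / R ^ 2) := by
    rw [show (N : ℝ) - 2 - 2 * N / q = -(2 * N / q) + (N - 2) by ring, Real.rpow_add hR',
      Real.rpow_sub hR', Real.rpow_natCast, Real.rpow_two, sq_abs]
  simp only [abs_inv, abs_pow] at k
  have k2 := mul_le_mul_of_nonneg_left k (by positivity : 0 ≤ |R| ^ N / R ^ 2)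
  simp only [e]
  refine le_trans (le_of_eq (by ring)) (k2.trans (le_of_eq ?_))
  field_simp

theorem lam1_ball (hN : 2 ≤ N) {q : ℝ} (hq : 1 ≤ q) (hqN : ((N : ℝ) - 2) * q < 2 * N) (v : E N)
    {t : ℝ} (ht : 0 < t) :
    lam1 (ball v t) q = lam1 (ball (0 : E N) 1) q * t ^ ((N : ℝ) - 2 - 2 * N / q) := by
  obtain ⟨a0, lA, p, mp, np, ep⟩ := exists_min hN isOpen_ball (isBounded_ball (x := (0 : E N)))
    (nonempty_ball.mpr one_pos) hq hqN
  obtain ⟨b0, lB, r, mr, nr, er⟩ := exists_min hN isOpen_ball (isBounded_ball (x := v))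
    (nonempty_ball.mpr ht) hq hqN
  obtain ⟨C, hC⟩ := exists_sob hN (isBounded_ball (x := (0 : E N)) (r := 1)) hq hqN.le
  obtain ⟨C', hC'⟩ := exists_sob hN (isBounded_ball (x := v) (r := t)) hq hqN.le
  have h1 := low_aff hC' lA (R := t) (v := v) ht.ne' (fun x hx => by
    rw [mem_ball_iff_norm, add_sub_cancel_right, norm_smul, Real.norm_eq_abs, abs_of_pos ht] at hx
    rw [mem_ball_zero_iff]
    by_contra h
    push Not at h
    nlinarith) r mr
  have h2 := low_aff hC lB (R := t⁻¹) (v := -(t⁻¹ • v)) (inv_ne_zero ht.ne') (fun x hx => by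
    rw [mem_ball_zero_iff, ← sub_eq_add_neg, ← smul_sub, norm_smul, norm_inv, Real.norm_eq_abs,
      abs_of_pos ht, inv_mul_lt_iff₀ ht, mul_one] at hx
    rwa [mem_ball_iff_norm]) p mp
  rw [nr, er, abs_of_pos ht] at h1
  rw [np, ep, abs_inv, abs_of_pos ht, Real.inv_rpow ht.le] at h2
  have h3 : 0 < t ^ ((N : ℝ) - 2 - 2 * N / q) := by positivity
  refine le_antisymm ?_ (by linarith)
  rw [← div_le_iff₀ h3, div_eq_mul_inv]; linarith

/-- end points of the balls on the axis, for the radii `t ^ j` -/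
noncomputable def pos (t : ℝ) (j : ℕ) : ℝ := ∑ i ∈ Finset.range j, 2 * t ^ i

theorem pos_succ (t : ℝ) (j : ℕ) : pos t (j + 1) = pos t j + 2 * t ^ j := by
  unfold pos
  rw [Finset.sum_range_succ]

theorem pos_zero (t : ℝ) : pos t 0 = 0 := by simp [pos]

theorem pos_mono {t : ℝ} (ht : 1 ≤ t) : Monotone (pos t) := by
  apply monotone_nat_of_le_succ
  intro j
  rw [pos_succ]
  have : 0 < t ^ j := by positivity
  linarith

theorem pos_gap {t : ℝ} (ht : 1 ≤ t) {i j : ℕ} (h : i < j) : pos t i + 2 ≤ pos t j := by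
  have h1 := pos_mono ht (show i + 1 ≤ j from h)
  rw [pos_succ] at h1
  have : 1 ≤ t ^ i := one_le_pow₀ ht
  linarith

theorem pos_nonneg {t : ℝ} (ht : 1 ≤ t) (j : ℕ) : 0 ≤ pos t j := by
  have := pos_mono ht (Nat.zero_le j)
  rwa [pos_zero] at this

/-- the balls -/
def BB (e : E N) (t : ℝ) (j : ℕ) : Set (E N) := ball ((pos t j + t ^ j) • e) (t ^ j)

/-- the balls of the chain with the numbers `a, ..., b` and the necks between them -/
def Om (e : E N) (t ε : ℝ) (a b : ℕ) : Set (E N) :=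
  {x | (∃ i, a ≤ i ∧ i ≤ b ∧ x ∈ BB e t i) ∨ ∃ i, a < i ∧ i ≤ b ∧ x ∈ ball (pos t i • e) ε}

theorem om_open (e : E N) (t ε : ℝ) (a b : ℕ) : IsOpen (Om e t ε a b) := by
  have : Om e t ε a b = (⋃ i, ⋃ (_ : a ≤ i ∧ i ≤ b), BB e t i) ∪
      ⋃ i, ⋃ (_ : a < i ∧ i ≤ b), ball (pos t i • e) ε := by
    ext x
    simp only [Om, mem_union, mem_iUnion, exists_prop, mem_ofPred_eq, and_assoc]
  rw [this]
  exact (isOpen_iUnion fun i => isOpen_iUnion fun _ => isOpen_ball).union
    (isOpen_iUnion fun i => isOpen_iUnion fun _ => isOpen_ball)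

theorem om_mono {e : E N} {t ε : ℝ} {a b a' b' : ℕ} (h1 : a' ≤ a) (h2 : b ≤ b') :
    Om e t ε a b ⊆ Om e t ε a' b' := by
  rintro x (⟨i, hi1, hi2, hx⟩ | ⟨i, hi1, hi2, hx⟩)
  · exact Or.inl ⟨i, by omega, by omega, hx⟩
  · exact Or.inr ⟨i, by omega, by omega, hx⟩

theorem bb_sub_om {e : E N} {t ε : ℝ} {a b j : ℕ} (h1 : a ≤ j) (h2 : j ≤ b) :
    BB e t j ⊆ Om e t ε a b := fun _ hx => Or.inl ⟨j, h1, h2, hx⟩

theorem om_self (e : E N) (t ε : ℝ) (a : ℕ) : Om e t ε a a ⊆ BB e t a := by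
  rintro x (⟨i, hi1, hi2, hx⟩ | ⟨i, hi1, hi2, hx⟩)
  · have : i = a := by omega
    rwa [this] at hx
  · omega

theorem om_split {e : E N} {t ε : ℝ} {a b i : ℕ} (h1 : a < i) (h2 : i ≤ b) {x : E N}
    (hx : x ∈ Om e t ε a b) (hn : x ∉ ball (pos t i • e) ε) :
    x ∈ Om e t ε a (i - 1) ∪ Om e t ε i b := by
  rcases hx with ⟨j, hj1, hj2, hx⟩ | ⟨j, hj1, hj2, hx⟩
  · rcases Nat.lt_or_ge j i with h | h
    · exact Or.inl (Or.inl ⟨j, hj1, by omega, hx⟩)
    · exact Or.inr (Or.inl ⟨j, h, hj2, hx⟩)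
  · rcases lt_trichotomy j i with h | h | h
    · exact Or.inl (Or.inr ⟨j, hj1, by omega, hx⟩)
    · rw [h] at hx
      exact absurd hx hn
    · exact Or.inr (Or.inr ⟨j, h, hj2, hx⟩)

theorem inner_ball {e : E N} (he : ‖e‖ = 1) {s r : ℝ} {x : E N} (hx : x ∈ ball (s • e) r) :
    s - r < inner ℝ e x ∧ inner ℝ e x < s + r := by
  have h1 : inner ℝ e x = s + inner ℝ e (x - s • e) := by
    rw [inner_sub_right, inner_smul_right, real_inner_self_eq_norm_sq, he]; ring
  have h2 := abs_real_inner_le_norm e (x - s • e)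
  rw [he, one_mul] at h2
  have h3 := mem_ball_iff_norm.mp hx
  have h4 := abs_le.mp h2
  constructor <;> linarith

theorem om_left {e : E N} (he : ‖e‖ = 1) {t ε : ℝ} (ht : 1 ≤ t) (hε : ε ≤ 1) {a b : ℕ} :
    Om e t ε a b ⊆ {x : E N | inner ℝ e x < pos t (b + 1)} := by
  rintro x (⟨i, hi1, hi2, hx⟩ | ⟨i, hi1, hi2, hx⟩)
  · have h1 := (inner_ball he hx).2
    have h2 := pos_mono ht (show i + 1 ≤ b + 1 by omega)
    rw [pos_succ] at h2
    change inner ℝ e x < _
    linarith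
  · have h1 := (inner_ball he hx).2
    have h2 := pos_gap ht (show i < b + 1 by omega)
    change inner ℝ e x < _
    linarith

theorem om_right {e : E N} (he : ‖e‖ = 1) {t ε : ℝ} (ht : 1 ≤ t) (hε : ε ≤ 1) {a b : ℕ} :
    Om e t ε a b ⊆ {x : E N | pos t a < inner ℝ e x} := by
  rintro x (⟨i, hi1, hi2, hx⟩ | ⟨i, hi1, hi2, hx⟩)
  · have h1 := (inner_ball he hx).1
    have h2 := pos_mono ht hi1
    change _ < inner ℝ e x
    linarith
  · have h1 := (inner_ball he hx).1
    have h2 := pos_gap ht hi1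
    change _ < inner ℝ e x
    linarith

theorem om_bdd {e : E N} (he : ‖e‖ = 1) {t ε : ℝ} (ht : 1 ≤ t) (hε : ε ≤ 1) {a b : ℕ} :
    Om e t ε a b ⊆ ball 0 (pos t (b + 1) + 1) := by
  rintro x (⟨i, hi1, hi2, hx⟩ | ⟨i, hi1, hi2, hx⟩)
  · have h2 := pos_mono ht (show i + 1 ≤ b + 1 by omega)
    rw [pos_succ] at h2
    have h3 := pos_nonneg ht i
    have h4 : 0 < t ^ i := by positivity
    refine ball_subset_ball' ?_ hx
    rw [dist_zero_right, norm_smul, he, Real.norm_eq_abs, abs_of_pos (by linarith)]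
    linarith
  · have h2 := pos_gap ht (show i < b + 1 by omega)
    have h3 := pos_nonneg ht i
    refine ball_subset_ball' ?_ hx
    rw [dist_zero_right, norm_smul, he, Real.norm_eq_abs, abs_of_nonneg h3]
    linarith

theorem axis_mem {e : E N} (he : ‖e‖ = 1) {t ε : ℝ} (ht : 1 ≤ t) (hε : 0 < ε) (m : ℕ) :
    ∀ s, 0 < s → s < pos t (m + 1) → s • e ∈ Om e t ε 0 m := by
  have hball : ∀ j s, pos t j < s → s < pos t (j + 1) → s • e ∈ BB e t j := by
    intro j s h1 h2
    rw [pos_succ] at h2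
    unfold BB
    rw [mem_ball_iff_norm, ← sub_smul, norm_smul, he, mul_one, Real.norm_eq_abs, abs_lt]
    constructor <;> linarith
  induction m with
  | zero =>
    intro s h1 h2
    exact bb_sub_om le_rfl le_rfl (hball 0 s (by rwa [pos_zero]) h2)
  | succ m ih =>
    intro s h1 h2
    rcases lt_trichotomy s (pos t (m + 1)) with h | h | h
    · exact om_mono le_rfl (Nat.le_succ m) (ih s h1 h)
    · refine Or.inr ⟨m + 1, Nat.succ_pos m, le_rfl, ?_⟩
      rw [h]
      exact mem_ball_self hε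
    · exact bb_sub_om (Nat.zero_le _) le_rfl (hball (m + 1) s h h2)

theorem om_conn {e : E N} (he : ‖e‖ = 1) {t ε : ℝ} (ht : 1 ≤ t) (hε : 0 < ε) (m : ℕ) :
    IsConnected (Om e t ε 0 m) := by
  have T0 : 2 ≤ pos t (m + 1) := by
    have := pos_gap ht (Nat.succ_pos m)
    rw [pos_zero] at this
    linarith
  have ax := axis_mem he ht hε m
  refine IsPathConnected.isConnected ⟨(1 : ℝ) • e, ax 1 one_pos (by linarith), fun {x} hx => ?_⟩
  -- the point of the axis in the same ball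
  obtain ⟨s, s0, s1, c, r, hcr, hs, hxs⟩ : ∃ s : ℝ, 0 < s ∧ s < pos t (m + 1) ∧
      ∃ (c : E N) (r : ℝ), ball c r ⊆ Om e t ε 0 m ∧ s • e ∈ ball c r ∧ x ∈ ball c r := by
    rcases hx with ⟨i, hi1, hi2, hx⟩ | ⟨i, hi1, hi2, hx⟩
    · have h2 := pos_mono ht (show i + 1 ≤ m + 1 by omega)
      rw [pos_succ] at h2
      have h3 := pos_nonneg ht i
      have h4 : 0 < t ^ i := by positivity
      exact ⟨pos t i + t ^ i, by linarith, by linarith, _, _, bb_sub_om hi1 hi2,
        mem_ball_self h4, hx⟩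
    · have h2 := pos_gap ht (show i < m + 1 by omega)
      have h3 := pos_gap ht hi1
      rw [pos_zero] at h3
      exact ⟨pos t i, by linarith, by linarith, _, _, fun y hy => Or.inr ⟨i, hi1, hi2, hy⟩,
        mem_ball_self hε, hx⟩
  refine (JoinedIn.of_segment_subset (y := s • e) ?_).trans (JoinedIn.of_segment_subset ?_)
  · rintro _ ⟨a, b, ha, hb, hab, rfl⟩
    rw [smul_smul, smul_smul, ← add_smul]
    have k1 : 0 < a * 1 + b * s := by
      rcases eq_or_lt_of_le ha with h | h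
      · have : b = 1 := by linarith
        rw [← h, this]; linarith
      · have := mul_nonneg hb s0.le
        linarith
    have k2 : a * 1 + b * s < pos t (m + 1) := by
      rcases eq_or_lt_of_le ha with h | h
      · have : b = 1 := by linarith
        rw [← h, this]; linarith
      · have h1 : b * s ≤ b * pos t (m + 1) := mul_le_mul_of_nonneg_left s1.le hb
        have h2 : a * 1 < a * pos t (m + 1) := mul_lt_mul_of_pos_left (by linarith) h
        have h3 : a * pos t (m + 1) + b * pos t (m + 1) = pos t (m + 1) := by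
          rw [← add_mul, hab, one_mul]
        linarith
    exact ax _ k1 k2
  · exact ((convex_ball c r).segment_subset hs hxs).trans hcr

theorem exists_eps (f : ℕ → ℝ) (hf : ∀ i, 0 < f i) (m : ℕ) : ∃ ε : ℝ, 0 < ε ∧ ∀ i ≤ m, ε ≤ f i := by
  induction m with
  | zero =>
    refine ⟨f 0, hf 0, fun i hi => ?_⟩
    rw [Nat.le_zero.1 hi]
  | succ m ih =>
    obtain ⟨ε, h1, h2⟩ := ih
    refine ⟨min ε (f (m + 1)), lt_min h1 (hf _), fun i hi => ?_⟩
    rcases Nat.lt_or_ge i (m + 1) with h | h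
    · exact (min_le_left _ _).trans (h2 i (by omega))
    · have : i = m + 1 := by omega
      rw [this]
      exact min_le_right _ _

/-- Piece D. -/
theorem stConn : ∀ (N : ℕ), 2 ≤ N → ∀ q : ℝ, 2 < q → ((N : ℝ) - 2) * q < 2 * N → ∀ m : ℕ,
    ∃ Ω : Set (E N), IsOpen Ω ∧ Bornology.IsBounded Ω ∧ IsConnected Ω ∧
      ∃ T : Finset ℝ, T.card = m ∧ ∀ l ∈ T, (∃ p : P N, IsEigen Ω q l p ∧ ∀ᵐ x, 0 ≤ p.1 x) ∧
        LS Ω q 1 < ENNReal.ofReal l ∧ ∀ k : ℕ, 2 ≤ k → ENNReal.ofReal l < LS Ω q k := by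
  intro N hN q hq hqN m
  obtain ⟨e, he⟩ := exists_e hN
  have hq0 : 0 < q := by linarith
  have hq1 : 1 ≤ q := by linarith
  set c : ℝ := 2 * (1 / 2) ^ (2 / q) with hc
  have c1 : 1 < c := by
    have : (1 / 2 : ℝ) ^ (1 : ℝ) < (1 / 2) ^ (2 / q) :=
      Real.rpow_lt_rpow_of_exponent_gt (by norm_num) (by norm_num) (by rw [div_lt_one hq0]; exact hq)
    rw [Real.rpow_one] at this; linarith
  set γ := (N : ℝ) - 2 - 2 * N / q with hγ
  have γ0 : γ < 0 := by rw [hγ, sub_neg, lt_div_iff₀ hq0]; exact hqN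
  obtain ⟨ρ, ρ0, ρ1, ρc⟩ : ∃ ρ : ℝ, 0 < ρ ∧ ρ < 1 ∧ 1 < c * (ρ ^ m * (ρ ^ (m + 1)) ^ m) := by
    obtain ⟨s, ⟨s1, s2⟩, s0⟩ : ∃ s : ℝ, (1 < c * ((1 - s) ^ m * ((1 - s) ^ (m + 1)) ^ m) ∧ s < 1) ∧
        0 < s :=
      ex_pos ((ContinuousAt.eventually_lt (by fun_prop) (by fun_prop) (by simpa using c1)).and
        (gt_mem_nhds one_pos))
    exact ⟨1 - s, by linarith, by linarith, s1⟩
  set θ : ℝ := ρ ^ (m + 1) with hθ
  have θ0 : 0 < θ := by positivity
  have θ1 : θ < 1 := pow_lt_one₀ ρ0.le ρ1 (Nat.succ_ne_zero m)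
  set t := θ ^ γ⁻¹ with ht
  have tγ : t ^ γ = θ := Real.rpow_inv_rpow θ0.le γ0.ne
  have t1 : 1 ≤ t := Real.one_le_rpow_of_pos_of_le_one_of_nonpos θ0 θ1.le (inv_nonpos.mpr γ0.le)
  have t0 : 0 < t := by linarith
  set Λ : ℝ := lam1 (ball (0 : E N) 1) q with hΛ
  have Λ0 : 0 < Λ := (exists_min hN isOpen_ball (isBounded_ball (x := (0 : E N)))
    (nonempty_ball.mpr one_pos) hq1 hqN).1
  -- the levels
  set lam : ℕ → ℝ := fun j => Λ * θ ^ j with hlam
  have lam0 : ∀ j, 0 < lam j := fun j => by simp only [hlam]; positivity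
  have hlamB : ∀ j, lam1 (BB e t j) q = lam j := by
    intro j
    have tj : 0 < t ^ j := by positivity
    unfold BB
    rw [lam1_ball hN hq1 hqN _ tj]
    simp only [hlam]
    rw [← hγ, ← Real.rpow_natCast t j, ← Real.rpow_mul t0.le, mul_comm (j : ℝ) γ,
      Real.rpow_mul t0.le, tγ, Real.rpow_natCast]
  have lam_anti : ∀ i j, i ≤ j → lam j ≤ lam i := fun i j h => by
    simp only [hlam]
    exact mul_le_mul_of_nonneg_left (pow_le_pow_of_le_one θ0.le θ1.le h) Λ0.le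
  have lam_succ : ∀ j, lam (j + 1) = θ * lam j := fun j => by simp only [hlam]; ring
  have hmin : ∀ j, Low (BB e t j) q (lam j) ∧ ∃ p ∈ H10 (BB e t j), nq q p = 1 ∧
      ‖p.2‖ ^ 2 = lam j := by
    intro j
    have tj : 0 < t ^ j := by positivity
    have := exists_min hN (Ω := BB e t j) isOpen_ball isBounded_ball (nonempty_ball.mpr tj) hq1 hqN
    rw [hlamB j] at this
    exact this.2
  -- the big ball and the necks
  set Ω0 : Set (E N) := ball 0 (pos t (m + 1) + 1) with hΩ0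
  have b0 : Bornology.IsBounded Ω0 := isBounded_ball
  obtain ⟨C, hC⟩ := exists_sob hN b0 hq1 hqN.le
  have C0 := hC.pos
  choose ε1 ε10 H1 using fun i : ℕ => room hN b0 hq hqN (pos t i • e) Λ0
    (by positivity : 0 < (C ^ 2)⁻¹) ρ1
  choose ε2 ε20 H2 using fun i : ℕ => room_low hN b0 hq.le hqN (pos t i • e)
    (b := ρ ^ (i - 1) * lam i) (mul_pos (pow_pos ρ0 _) (lam0 i)) ρ1
  obtain ⟨ε, ε0, hε⟩ := exists_eps (fun i => min (min (ε1 i) (ε2 i)) 1)
    (fun i => lt_min (lt_min (ε10 i) (ε20 i)) one_pos) m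
  have hε1 : ε ≤ 1 := (hε 0 (Nat.zero_le m)).trans (min_le_right _ _)
  have hεa : ∀ i ≤ m, ε ≤ ε1 i := fun i hi =>
    (hε i hi).trans ((min_le_left _ _).trans (min_le_left _ _))
  have hεb : ∀ i ≤ m, ε ≤ ε2 i := fun i hi =>
    (hε i hi).trans ((min_le_left _ _).trans (min_le_right _ _))
  have hsub : ∀ a b, b ≤ m → Om e t ε a b ⊆ Ω0 := fun a b hb =>
    (om_mono le_rfl hb).trans (om_bdd he t1 hε1)
  have oU : ∀ s : ℝ, IsOpen {x : E N | inner ℝ e x < s} := fun s =>
    isOpen_lt (by fun_prop) continuous_const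
  have oV : ∀ s : ℝ, IsOpen {x : E N | s < inner ℝ e x} := fun s =>
    isOpen_lt continuous_const (by fun_prop)
  have dUV : ∀ s : ℝ, Disjoint {x : E N | inner ℝ e x < s} {x : E N | s < inner ℝ e x} :=
    fun s => disjoint_left.mpr fun x h1 h2 => by
      have h1' : inner ℝ e x < s := h1
      have h2' : s < inner ℝ e x := h2
      linarith
  -- lower bounds of the left parts
  have hLow : ∀ j, j ≤ m → Low (Om e t ε 0 j) q (ρ ^ j * lam j) := by
    intro j
    induction j with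
    | zero =>
      intro _
      rw [pow_zero, one_mul]
      exact (hmin 0).1.mono (om_self e t ε 0)
    | succ j ih =>
      intro hj
      have h1 := ih (by omega)
      have h2 := H2 (j + 1) (Om e t ε 0 (j + 1)) {x | inner ℝ e x < pos t (j + 1)}
        {x | pos t (j + 1) < inner ℝ e x} (Om e t ε 0 j) (Om e t ε (j + 1) (j + 1))
        (hsub _ _ hj) (oU _) (oV _) (dUV _) (om_open _ _ _ _ _) (om_open _ _ _ _ _)
        (om_mono le_rfl (Nat.le_succ j)) (om_mono (Nat.zero_le _) le_rfl)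
        (om_left he t1 hε1) (om_right he t1 hε1)
        (fun x hx hn => om_split (i := j + 1) (Nat.succ_pos j) le_rfl hx
          fun h => hn (ball_subset_ball (hεb _ hj) h))
        (h1.le (by
          rw [Nat.add_sub_cancel]
          exact mul_le_mul_of_nonneg_left (lam_anti _ _ (Nat.le_succ j)) (by positivity)))
        (((hmin (j + 1)).1.mono (om_self e t ε (j + 1))).le (by
          rw [Nat.add_sub_cancel]
          exact mul_le_of_le_one_left (lam0 _).le (pow_le_one₀ ρ0.le ρ1.le)))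
      rw [Nat.add_sub_cancel, ← mul_assoc, ← pow_succ'] at h2
      exact h2
  have hA : ∀ j, j ≤ m → ρ ^ j * lam j ≤ lam1 (Om e t ε 0 j) q ∧
      lam1 (Om e t ε 0 j) q ≤ lam j := by
    intro j hj
    obtain ⟨p, mp, np, ep⟩ := (hmin j).2
    have hne : (Om e t ε 0 j).Nonempty := by
      have tj : 0 < t ^ j := by positivity
      exact (nonempty_ball.mpr tj).mono (bb_sub_om (e := e) (t := t) (ε := ε) (Nat.zero_le j) le_rfl)
    obtain ⟨-, lA, r, mr, nr, er⟩ := exists_min hN (om_open e t ε 0 j) (b0.subset (hsub 0 j hj))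
      hne hq1 hqN
    constructor
    · have := hLow j hj r mr
      rw [nr, one_pow, mul_one, er] at this
      exact this
    · have := lA p (H10.mono (bb_sub_om (Nat.zero_le j) le_rfl) mp)
      rw [np, one_pow, mul_one, ep] at this
      exact this
  -- the eigenvalues
  have heig : ∀ i : ℕ, i < m → ∃ μ : ℝ, (∃ p : P N, IsEigen (Om e t ε 0 m) q μ p ∧
      ∀ᵐ x, 0 ≤ p.1 x) ∧ lam (i + 1) < μ ∧ μ ≤ lam i := by
    intro i hi
    have hi' : i + 1 ≤ m := hi
    have hne : (Om e t ε 0 i).Nonempty := by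
      have tj : 0 < t ^ i := by positivity
      exact (nonempty_ball.mpr tj).mono (bb_sub_om (e := e) (t := t) (ε := ε) (Nat.zero_le i) le_rfl)
    obtain ⟨p, -, p1, p2, p3, p4⟩ := H1 (i + 1) (Om e t ε 0 m) {x | inner ℝ e x < pos t (i + 1)}
      {x | pos t (i + 1) < inner ℝ e x} (Om e t ε 0 i) (Om e t ε (i + 1) m)
      (hsub _ _ le_rfl) (om_open _ _ _ _ _) (oU _) (oV _) (dUV _) (om_open _ _ _ _ _)
      (om_open _ _ _ _ _) (om_mono le_rfl hi.le) (om_mono (Nat.zero_le _) le_rfl) hne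
      (om_left he t1 hε1) (om_right he t1 hε1)
      (fun x hx hn => om_split (i := i + 1) (Nat.succ_pos i) hi' hx
        fun h => hn (ball_subset_ball (hεa _ hi') h))
      (((hA i hi.le).2.trans (lam_anti 0 i (Nat.zero_le i))).trans (by simp [hlam]))
      (hC.low.mono (hsub _ _ le_rfl))
    refine ⟨‖p.2‖ ^ 2, ⟨p, p1, p2⟩, ?_, p4.trans (hA i hi.le).2⟩
    refine lt_of_lt_of_le ?_ p3
    have h1 := (hA i hi.le).1
    have h2 : ρ ^ (m + 1) < ρ ^ (i + 1) := pow_lt_pow_right_of_lt_one₀ ρ0 ρ1 (by omega)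
    calc lam (i + 1) = ρ ^ (m + 1) * lam i := lam_succ i
      _ < ρ ^ (i + 1) * lam i := mul_lt_mul_of_pos_right h2 (lam0 i)
      _ = ρ * (ρ ^ i * lam i) := by ring
      _ ≤ _ := mul_le_mul_of_nonneg_left h1 ρ0.le
  choose! μ hμ1 hμ2 hμ3 using heig
  have hanti : ∀ i j, i < j → j < m → μ j < μ i := fun i j hij hj =>
    (hμ3 j hj).trans_lt ((lam_anti _ _ hij).trans_lt (hμ2 i (by omega)))
  have hinj : Set.InjOn μ (Finset.range m : Set ℕ) := by
    intro i hi j hj hij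
    rw [Finset.coe_range, Set.mem_Iio] at hi hj
    rcases lt_trichotomy i j with h | h | h
    · exact absurd hij (hanti i j h hj).ne'
    · exact h
    · exact absurd hij (hanti j i h hi).ne
  have bd := b0.subset (hsub 0 m le_rfl)
  refine ⟨Om e t ε 0 m, om_open _ _ _ _ _, bd, om_conn he t1 ε0 m,
    (Finset.range m).image μ, ?_, ?_⟩
  · rw [Finset.card_image_of_injOn hinj, Finset.card_range]
  · intro l hl
    obtain ⟨i, hi, rfl⟩ := Finset.mem_image.1 hl
    rw [Finset.mem_range] at hi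
    obtain ⟨C', hC'⟩ := exists_sob hN bd hq1 hqN.le
    have h1 : lam m < μ i := (lam_anti _ _ hi).trans_lt (hμ2 i hi)
    refine ⟨hμ1 i hi, ?_, fun k hk => ?_⟩
    · obtain ⟨p, mp, np, ep⟩ := (hmin m).2
      refine (LS_one_le (hC'.sph.mpr ⟨H10.mono (bb_sub_om (Nat.zero_le m) le_rfl) mp,
        np⟩)).trans_lt ?_
      rw [ep]
      exact (ENNReal.ofReal_lt_ofReal_iff_of_nonneg (lam0 m).le).2 h1
    · refine lt_of_lt_of_le ?_ (LS_two hN (om_open _ _ _ _ _) bd hC' (hLow m le_rfl) hk)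
      have h2 : 0 ≤ μ i := (lam0 m).le.trans h1.le
      refine (ENNReal.ofReal_lt_ofReal_iff_of_nonneg h2).2 ?_
      have h3 : μ i ≤ Λ := (hμ3 i hi).trans ((lam_anti 0 i (Nat.zero_le i)).trans (by simp [hlam]))
      rw [← hc]
      calc μ i ≤ Λ := h3
        _ = Λ * 1 := (mul_one _).symm
        _ < Λ * (c * (ρ ^ m * θ ^ m)) := mul_lt_mul_of_pos_left ρc Λ0
        _ = ρ ^ m * lam m * c := by simp only [hlam]; ring


end Pool.Agent.H12.LS.Conn
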