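import Pool.Agent.H12.LS.Inter

open MeasureTheory Filter Topology Set Metric
open scoped ENNReal NNReal

namespace Pool.Agent.H12.LS

open Pool.Agent.H92.Q

variable {N : ℕ}

theorem exists_zeroK {Ω : Set (E N)} {C : ℝ} (hC : Sob Ω 2 C) {F : Set (Pair N)} {K : ℕ}
    {L : P N → EuclideanSpace ℝ (Fin K)} (hF : F ⊆ Sob0 Ω) (hne : F.Nonempty)
    (hL : ContinuousOn L (H10 Ω)) (ho : ∀ p, L (-p) = -L p) {k : ℕ} (hk : K < k)
    (hg : (k : ℕ∞) ≤ genus F) : ∃ p ∈ F, L (toP p) = 0 := by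
  by_contra hn
  push Not at hn
  have hm : ∀ p ∈ F, toP p ∈ H10 Ω := fun p hp => (mem_iff (toP1 (hF hp)) (toP2 (hF hp))).mpr (hF hp)
  have C0 := hC.pos
  have hK : 1 ≤ K := by
    rcases Nat.eq_zero_or_pos K with h | h
    · subst h
      obtain ⟨p, hp⟩ := hne
      exact (hn p hp (Subsingleton.elim _ _)).elim
    · exact h
  have : genus F ≤ (K : ℕ) := by
    refine iInf_le_of_le K (iInf_le_of_le hK (iInf_le_of_le
      ⟨fun p => ‖L (toP p)‖⁻¹ • L (toP p), fun p hp ε hε => ?_,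
        fun p hp => ?_, fun p hp => ?_⟩ le_rfl))
    · have c : ContinuousWithinAt (fun r => ‖L r‖⁻¹ • L r) (H10 Ω) (toP p) :=
        ((hL _ (hm p hp)).norm.inv₀ (norm_ne_zero_iff.mpr (hn p hp))).smul (hL _ (hm p hp))
      obtain ⟨δ, δ0, hδ⟩ := Metric.continuousWithinAt_iff.mp c ε hε
      refine ⟨ENNReal.ofReal (δ / (C + 1)), by simp; positivity, fun r hr h => ?_⟩
      rw [← dist_eq_norm]
      refine hδ (hm r hr) ?_
      have e : L2v (r.2 - p.2) = ENNReal.ofReal ‖(toP r - toP p).2‖ := by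
        rw [ofReal_norm, ← enorm_Lp, L2v]
        exact eLpNorm_congr_ae ((Lp.coeFn_sub _ _).trans ((toP2 (hF hr)).sub (toP2 (hF hp)))).symm
      rw [e, ENNReal.ofReal_lt_ofReal_iff (by positivity), lt_div_iff₀ (by positivity)] at h
      have h1 := hC.le _ (H10.sub (hm r hr) (hm p hp))
      rw [ENNReal.ofReal_ofNat, enorm_Lp, ← ofReal_norm,
        ENNReal.ofReal_le_ofReal_iff (by positivity)] at h1
      rw [dist_eq_norm, Prod.norm_def]
      have := norm_nonneg (toP r - toP p).2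
      exact max_lt (by nlinarith) (by nlinarith)
    · rw [norm_smul, norm_inv, norm_norm, inv_mul_cancel₀ (norm_ne_zero_iff.mpr (hn p hp))]
    · simp [toP_neg (hF hp), ho]
  have := hg.trans this
  norm_cast at this; omega

theorem LS_geK (hN : 2 ≤ N) {Ω : Set (E N)} (bd : Bornology.IsBounded Ω) {q b : ℝ} {K : ℕ}
    {L : P N → EuclideanSpace ℝ (Fin K)} (hL : ContinuousOn L (H10 Ω))
    (ho : ∀ p, L (-p) = -L p) (hb : ∀ p ∈ Sph Ω q, L p = 0 → b ≤ ‖p.2‖ ^ 2) {k : ℕ} (hk : K < k) :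
    ENNReal.ofReal b ≤ LS Ω q k := by
  have hN' : (2 : ℝ) ≤ N := by exact_mod_cast hN
  obtain ⟨C, hC⟩ := exists_sob hN bd (s := 2) (by norm_num) (by linarith)
  refine le_iInf fun F => le_iInf fun h1 => le_iInf fun hne => le_iInf fun _ => le_iInf fun _ =>
    le_iInf fun hg => ?_
  obtain ⟨p, hp, h0⟩ := exists_zeroK hC (fun p hp => (h1 hp).1) hne hL ho hk hg
  refine le_iSup₂_of_le p hp (ENNReal.ofReal_le_ofReal ?_)
  rw [dir_eq (toP2 (h1 hp).1)]
  exact hb _ ((sph_iff (toP1 (h1 hp).1) (toP2 (h1 hp).1)).mpr (h1 hp)) h0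

/-- **Growth of the Lusternik-Schnirelmann values.** -/
theorem grow (h1 : StA1) (hN : 2 ≤ N) {q : ℝ} (hq : 2 < q) (hqN : ((N : ℝ) - 2) * q < 2 * N)
    {Ω : Set (E N)} (hb : Bornology.IsBounded Ω) {α : ℝ} (α0 : 0 < α)
    (hα : α < (2 * N / q - N + 2) / N) :
    ∃ c : ℝ, 0 < c ∧ ∀ k : ℕ, 1 ≤ k → ENNReal.ofReal (c * (k : ℝ) ^ α) ≤ LS Ω q k := by
  obtain ⟨C, C0, H1⟩ := h1 N hN Ω hb
  have N0' : (0 : ℝ) < N := by positivity
  set a : ℝ := α * N with ha
  have a0 : 0 < a := by positivity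
  have haN : α = a / N := by rw [ha]; field_simp
  obtain ⟨c, c0, H2⟩ := inter hN hq hb a0 (by rwa [lt_div_iff₀ N0'] at hα)
  obtain ⟨S, hS⟩ := exists_sob hN hb (s := q) (by linarith) hqN.le
  have S0 := hS.pos
  have N0 : (0 : ℝ) < N := by positivity
  set c1 : ℝ := c * ((1 / 2) ^ (1 / (N : ℝ)) / (2 * C)) ^ a with hc1
  have c10 : 0 < c1 := by positivity
  rw [haN]
  refine ⟨min c1 (S ^ 2)⁻¹, lt_min c10 (by positivity), fun k hk => ?_⟩
  rcases Nat.eq_or_lt_of_le hk with h | h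
  · subst h
    refine LS_geK hN hb (L := fun _ => (0 : EuclideanSpace ℝ (Fin 0))) continuousOn_const
      (fun p => by simp) (fun p hp _ => ?_) one_pos
    simp only [Nat.cast_one, Real.one_rpow, mul_one]
    have := hS.low p hp.1
    rw [(hS.sph.mp hp).2] at this
    exact (min_le_right _ _).trans (by linarith)
  · have k2 : (2 : ℝ) ≤ k := by exact_mod_cast h
    set y : ℝ := ((k : ℝ) / 2) ^ (1 / (N : ℝ)) with hy
    have y1 : 1 ≤ y := Real.one_le_rpow (by linarith) (by positivity)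
    set n : ℕ := ⌊y⌋₊ with hn
    have n1 : 1 ≤ n := by rw [hn]; exact Nat.le_floor (by simpa using y1)
    have ny : (n : ℝ) ≤ y := Nat.floor_le (by linarith)
    have yn : y / 2 ≤ n := by
      have h1 := Nat.lt_floor_add_one y
      have h2 : (1 : ℝ) ≤ n := by exact_mod_cast n1
      rw [← hn] at h1
      linarith
    have hkn : n ^ N < k := by
      have h3 : (n : ℝ) ^ N ≤ (k : ℝ) / 2 := by
        calc (n : ℝ) ^ N ≤ y ^ N := pow_le_pow_left₀ (by positivity) ny N
          _ = (k : ℝ) / 2 := by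
              rw [hy, ← Real.rpow_natCast, ← Real.rpow_mul (by positivity),
                one_div_mul_cancel N0.ne', Real.rpow_one]
      have h4 : (n : ℝ) ^ N < k := by linarith
      exact_mod_cast h4
    obtain ⟨L, cL, oL, hL⟩ := H1 n n1
    refine LS_geK hN hb (L := L) cL.continuousOn oL (fun p hp h0 => ?_) hkn
    have n0 : (0 : ℝ) < n := by exact_mod_cast n1
    have h5 := H2 p hp (C / n) (by positivity) (hL p hp.1 h0)
    refine le_trans ?_ h5
    calc min c1 (S ^ 2)⁻¹ * (k : ℝ) ^ (a / N) ≤ c1 * (k : ℝ) ^ (a / N) := by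
          gcongr; exact min_le_left _ _
      _ = c * (y / 2 / C) ^ a := by
          have e1 : (k : ℝ) ^ (a / N) = ((k : ℝ) ^ (1 / (N : ℝ))) ^ a := by
            rw [← Real.rpow_mul (by positivity)]; congr 1; ring
          have e2 : y = (1 / 2) ^ (1 / (N : ℝ)) * (k : ℝ) ^ (1 / (N : ℝ)) := by
            rw [hy, ← Real.mul_rpow (by norm_num) (by positivity)]; congr 1; ring
          rw [hc1, e1, e2, mul_assoc, ← Real.mul_rpow (by positivity) (by positivity)]
          congr 2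
          field_simp
      _ ≤ c * (C / n)⁻¹ ^ a := by
          rw [inv_div]
          refine mul_le_mul_of_nonneg_left (Real.rpow_le_rpow (by positivity) ?_ a0.le) c0.le
          exact div_le_div_of_nonneg_right yn C0.le

end Pool.Agent.H12.LS
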