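import Pool.Agent.H12.LS.Chain2
import Pool.Agent.H12.LS.Grow

open MeasureTheory Filter Topology Set Metric
open scoped ENNReal NNReal

namespace Pool.Agent.H12.LS

open Pool.Agent.H92.Q

variable {N : ℕ}

theorem final (hP : StP) (hC : StC2) (hA : StA1) (hN : 2 ≤ N) {q : ℝ} (hq : 2 < q)
    (hqN : ((N : ℝ) - 2) * q < 2 * N)
    {U : Set (E N)} (oU : IsOpen U) (bU : Bornology.IsBounded U) (nU : U.Nonempty)
    {b : ℝ} (b0 : 0 < b) (hb : b < (N : ℝ) / 2) :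
    ∃ Ω ⊆ U, IsOpen Ω ∧ volume (U \ Ω) = 0 ∧ ∃ L0 : ℝ, ∀ L : ℕ → ℝ≥0∞,
      (∀ k, LS Ω q k ≤ L k) → ∀ Λ : ℝ, L0 ≤ Λ → ∃ T : Finset ℝ, Real.exp (Λ ^ b) ≤ (T.card : ℝ) ∧
        ∀ l ∈ T, 0 < l ∧ l ≤ Λ ∧ (∃ p : P N, IsEigen Ω q l p ∧ ∀ᵐ x, 0 ≤ p.1 x) ∧
          ∀ k : ℕ, 1 ≤ k → L k ≠ ENNReal.ofReal l := by
  have N0 : (0 : ℝ) < N := by positivity
  have q0 : 0 < q := by linarith
  set g : ℝ := 2 * N / q - N + 2 with hg
  have g0 : 0 < g := by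
    have : (N : ℝ) - 2 < 2 * N / q := by rw [lt_div_iff₀ q0]; exact hqN
    rw [hg]; linarith
  set κ : ℝ := g * (q / (q - 2)) with hκ
  have κ0 : 0 < κ := mul_pos g0 (div_pos q0 (by linarith))
  have hκr : κ * ((q - 2) / q) = g := by
    rw [hκ, mul_assoc, div_mul_div_comm, mul_comm q (q - 2), div_self (by
      have : q - 2 ≠ 0 := by linarith
      positivity), mul_one]
  have hbN : 2 / (N : ℝ) < 1 / b := by
    rw [div_lt_div_iff₀ N0 b0]; linarith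
  set β : ℝ := 1 / N + (1 / b - 2 / N) / (2 * g) with hβ
  have β1 : 1 / (N : ℝ) < β := by
    have : 0 < (1 / b - 2 / (N : ℝ)) / (2 * g) := div_pos (by linarith) (by positivity)
    rw [hβ]; linarith
  have β0 : 0 < β := lt_trans (by positivity) β1
  have key : (β * κ + 1) * ((q - 2) / q) < 1 / b := by
    have e1 : (β * κ + 1) * ((q - 2) / q) = β * g + (q - 2) / q := by rw [← hκr]; ring
    have e2 : β * g = g / N + (1 / b - 2 / N) / 2 := by rw [hβ]; field_simp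
    have e3 : g / N + (q - 2) / q = 2 / N := by rw [hg]; field_simp; ring
    rw [e1, e2]; linarith
  have kp : 0 < (β * κ + 1) * ((q - 2) / q) :=
    mul_pos (by positivity) (div_pos (by linarith) q0)
  have hb' : b < 1 / ((β * κ + 1) * ((q - 2) / q)) := by
    rw [lt_div_iff₀ kp]
    rw [lt_div_iff₀ b0] at key
    linarith
  obtain ⟨Ω, sub, oΩ, nul, W, A, A0, w1, w2, H⟩ := chain2 hP hN hq hqN oU bU nU β1 hκ
  have hα : 0 < g / N / 2 := by positivity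
  obtain ⟨c, c0, hc⟩ := grow hA hN hq hqN (bU.subset sub) hα (by rw [← hg]; exact half_lt_self (by positivity))
  obtain ⟨L0, hL0⟩ := hC (β * κ) A ((q - 2) / q) c (g / N / 2) b W (by positivity) A0
    (div_pos (by linarith) q0) c0 hα b0 hb' w1 w2
  refine ⟨Ω, sub, oΩ, nul, L0, fun L hL Λ hΛ => ?_⟩
  obtain ⟨T, h1, h2⟩ := hL0 L (fun k hk => (hc k hk).trans (hL k)) Λ hΛ
  refine ⟨T, h2, fun l hl => ?_⟩
  obtain ⟨k1, k2, ⟨S, hS, k3⟩, k4⟩ := h1 l hl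
  refine ⟨k1, k2, ?_, k4⟩
  rw [k3]
  exact H S hS

end Pool.Agent.H12.LS
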