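import Pool.Agent.H12.LS.Stub

open MeasureTheory Filter Topology Set Metric
open scoped ENNReal NNReal

namespace Pool.Agent.H12.LS

open Pool.Agent.H92.Q

variable {N : ℕ}

theorem eLp_pow {f : E N → ℝ} {q : ℝ} (hq : 0 < q) :
    ∫⁻ x, ‖f x‖ₑ ^ q = eLpNorm f (ENNReal.ofReal q) volume ^ q := by
  rw [eLpNorm_eq_lintegral_rpow_enorm_toReal (by simpa using hq) ENNReal.ofReal_ne_top,
    ENNReal.toReal_ofReal hq.le, ← ENNReal.rpow_mul, one_div_mul_cancel hq.ne', ENNReal.rpow_one]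

theorem inter (hN : 2 ≤ N) {q : ℝ} (hq : 2 < q) {Ω : Set (E N)} (hb : Bornology.IsBounded Ω)
    {α : ℝ} (α0 : 0 < α) (hα : α < 2 * N / q - N + 2) :
    ∃ c : ℝ, 0 < c ∧ ∀ p ∈ Sph Ω q, ∀ d : ℝ, 0 < d → ‖p.1‖ ≤ d * ‖p.2‖ →
      c * d⁻¹ ^ α ≤ ‖p.2‖ ^ 2 := by
  have hN' : (2 : ℝ) ≤ N := by exact_mod_cast hN
  have q0' : 0 < q := by linarith
  set t : ℝ := α * q / 4 with ht
  have t0 : 0 < t := by positivity
  have ht4 : 4 * t < 2 * N - ((N : ℝ) - 2) * q := by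
    have := mul_lt_mul_of_pos_right hα q0'
    have e : (2 * (N : ℝ) / q - N + 2) * q = 2 * N - ((N : ℝ) - 2) * q := by
      field_simp
      ring
    rw [e] at this
    rw [ht]; linarith
  have t1 : t < 1 := by nlinarith
  set Q : ℝ := (q - 2 * t) / (1 - t) with hQ
  have Qt : Q * (1 - t) = q - 2 * t := by
    rw [hQ]; exact div_mul_cancel₀ _ (by linarith : 1 - t ≠ 0)
  have hQ1 : q < Q := by
    rw [hQ, lt_div_iff₀ (by linarith)]
    nlinarith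
  have hQ2 : ((N : ℝ) - 2) * Q ≤ 2 * N := by
    rw [hQ, mul_div_assoc', div_le_iff₀ (by linarith)]
    nlinarith
  obtain ⟨C, hC⟩ := exists_sob hN hb (s := Q) (by linarith) hQ2
  have C0 := hC.pos
  set s : ℝ := 1 - t with hs
  have s0 : 0 < s := by rw [hs]; linarith
  have s1 : s < 1 := by rw [hs]; linarith
  have sQ : s * (Q - 2) = q - 2 := by rw [hs]; linarith
  refine ⟨(C ^ (Q * s)) ^ (-(2 / q)), by positivity, fun p hp d hd hle => ?_⟩
  have hα' : α = 4 * (1 - s) / q := by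
    rw [hs, ht]; field_simp; ring
  rw [hα']
  have hq0 : 0 < q := by linarith
  have hQ0 : 0 < Q := by linarith
  have h1 : ∫⁻ x, ‖p.1 x‖ₑ ^ q = 1 := by rw [eLp_pow hq0, hp.2, ENNReal.one_rpow]
  have h2 : ∫⁻ x, ‖p.1 x‖ₑ ^ (2 : ℝ) ≤ ENNReal.ofReal (d * ‖p.2‖) ^ (2 : ℝ) := by
    rw [eLp_pow (by norm_num : (0 : ℝ) < 2)]
    refine ENNReal.rpow_le_rpow ?_ (by norm_num)
    rw [ENNReal.ofReal_ofNat, enorm_Lp, ← ofReal_norm]
    exact ENNReal.ofReal_le_ofReal hle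
  have h3 : ∫⁻ x, ‖p.1 x‖ₑ ^ Q ≤ ENNReal.ofReal (C * ‖p.2‖) ^ Q := by
    rw [eLp_pow hQ0]
    exact ENNReal.rpow_le_rpow (hC.le p hp.1) hQ0.le
  have mm : AEMeasurable (fun x => ‖p.1 x‖ₑ) volume := (Lp.aestronglyMeasurable p.1).enorm
  have h4 := ENNReal.lintegral_mul_norm_pow_le (μ := (volume : Measure (E N)))
    (f := fun x => ‖p.1 x‖ₑ ^ (2 : ℝ)) (g := fun x => ‖p.1 x‖ₑ ^ Q)
    (mm.pow_const _) (mm.pow_const _) (p := 1 - s) (q := s)
    (by linarith) s0.le (by ring)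
  have h5 : ∫⁻ x, ‖p.1 x‖ₑ ^ q = ∫⁻ x, (‖p.1 x‖ₑ ^ (2 : ℝ)) ^ (1 - s) * (‖p.1 x‖ₑ ^ Q) ^ s := by
    refine lintegral_congr fun x => ?_
    rw [← ENNReal.rpow_mul, ← ENNReal.rpow_mul, ← ENNReal.rpow_add_of_nonneg _ _
      (by nlinarith) (by positivity)]
    congr 1; linarith
  rw [← h5, h1] at h4
  set X := ‖p.2‖ with hX
  have X0 : 0 ≤ X := norm_nonneg _
  have h6 : (1 : ℝ≥0∞) ≤ ENNReal.ofReal (((d * X) ^ (2 : ℝ)) ^ (1 - s) * ((C * X) ^ Q) ^ s) := by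
    refine h4.trans ((mul_le_mul' (ENNReal.rpow_le_rpow h2 (by linarith))
      (ENNReal.rpow_le_rpow h3 s0.le)).trans (le_of_eq ?_))
    rw [ENNReal.ofReal_rpow_of_nonneg (by positivity) (by norm_num),
      ENNReal.ofReal_rpow_of_nonneg (by positivity) (by linarith),
      ENNReal.ofReal_rpow_of_nonneg (by positivity) hQ0.le,
      ENNReal.ofReal_rpow_of_nonneg (by positivity) s0.le,
      ← ENNReal.ofReal_mul (by positivity)]
  have h7 : 1 ≤ ((d * X) ^ (2 : ℝ)) ^ (1 - s) * ((C * X) ^ Q) ^ s := by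
    rwa [← ENNReal.ofReal_one, ENNReal.ofReal_le_ofReal_iff (by positivity)] at h6
  have X1 : 0 < X := by
    rcases X0.eq_or_lt with h | h
    · rw [← h] at h7
      simp [Real.zero_rpow hQ0.ne', Real.zero_rpow s0.ne'] at h7
      linarith
    · exact h
  have h8 : ((d * X) ^ (2 : ℝ)) ^ (1 - s) * ((C * X) ^ Q) ^ s =
      d ^ (2 * (1 - s)) * C ^ (Q * s) * X ^ q := by
    rw [← Real.rpow_mul (by positivity), ← Real.rpow_mul (by positivity),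
      Real.mul_rpow hd.le X0, Real.mul_rpow C0.le X0]
    have : X ^ q = X ^ (2 * (1 - s)) * X ^ (Q * s) := by
      rw [← Real.rpow_add X1]; congr 1; linarith
    rw [this]; ring
  rw [h8] at h7
  set K := d ^ (2 * (1 - s)) * C ^ (Q * s) with hK
  have K0 : 0 < K := by positivity
  have h9 : K⁻¹ ≤ X ^ q := by rwa [inv_le_iff_one_le_mul₀' K0]
  have h10 : K⁻¹ ^ (2 / q) ≤ X ^ 2 := by
    have := Real.rpow_le_rpow (by positivity) h9 (by positivity : 0 ≤ 2 / q)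
    rwa [← Real.rpow_mul X0, mul_div_cancel₀ _ hq0.ne', Real.rpow_two] at this
  refine le_trans (le_of_eq ?_) h10
  have e1 : K⁻¹ ^ (2 / q) = (d ^ (2 * (1 - s))) ^ (-(2 / q)) * (C ^ (Q * s)) ^ (-(2 / q)) := by
    rw [Real.inv_rpow K0.le, ← Real.rpow_neg K0.le, hK,
      Real.mul_rpow (by positivity) (by positivity)]
  have e2 : d⁻¹ ^ (4 * (1 - s) / q) = (d ^ (2 * (1 - s))) ^ (-(2 / q)) := by
    rw [Real.inv_rpow hd.le, ← Real.rpow_neg hd.le, ← Real.rpow_mul hd.le]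
    congr 1; ring
  rw [e1, e2, mul_comm]

end Pool.Agent.H12.LS
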