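import Pool.Agent.H12.LS.Stub2

open MeasureTheory Filter Topology Set Metric
open scoped ENNReal NNReal

namespace Pool.Agent.H12.LS

theorem dig_inj (b : ℕ) : ∀ K u v : ℕ, u < b ^ K → v < b ^ K →
    (∀ i < K, u / b ^ i % b = v / b ^ i % b) → u = v := by
  intro K
  induction K with
  | zero => intro u v hu hv _; simp at hu hv; omega
  | succ K ih =>
    intro u v hu hv h
    have h0 : u % b = v % b := by simpa using h 0 (by omega)
    have h1 : u / b = v / b := by
      refine ih _ _ (Nat.div_lt_of_lt_mul (by rwa [pow_succ'] at hu))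
        (Nat.div_lt_of_lt_mul (by rwa [pow_succ'] at hv)) fun i hi => ?_
      have := h (i + 1) (by omega)
      rwa [pow_succ', ← Nat.div_div_eq_div_mul, ← Nat.div_div_eq_div_mul] at this
    rw [← Nat.div_add_mod u b, ← Nat.div_add_mod v b, h0, h1]

theorem stP : StP := by
  intro N hN β hβ
  have N0 : (0 : ℝ) < N := by positivity
  have N2 : (2 : ℝ) ≤ N := by exact_mod_cast hN
  have hNβ : 1 < N * β := by rwa [div_lt_iff₀' N0] at hβ
  have β0 : 0 < β := lt_trans (by positivity) hβ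
  set r : ℝ := (2 : ℝ) ^ (1 - N * β) with hr
  have r0 : 0 < r := by positivity
  have r1 : r < 1 := Real.rpow_lt_one_of_one_lt_of_neg (by norm_num) (by linarith)
  set A : ℝ := 1 / (4 * N) with hA
  have A0 : 0 < A := by positivity
  set c : ℝ := A * (1 - r) / 6 with hc
  have c0 : 0 < c := by
    have : 0 < 1 - r := by linarith
    positivity
  have cA : 6 * c = A * (1 - r) := by rw [hc]; ring
  have cA' : 6 * c ≤ A := by rw [cA]; nlinarith
  -- stages
  set J : ℕ → ℕ := fun n => Nat.log (2 ^ N) (n + 1) with hJ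
  have b1 : 1 < 2 ^ N := Nat.one_lt_two_pow (by omega)
  have J1 : ∀ n, (2 ^ N) ^ J n ≤ n + 1 := fun n => Nat.pow_log_le_self _ (by omega)
  have J2 : ∀ n, n + 1 < (2 ^ N) ^ (J n + 1) := fun n => Nat.lt_pow_succ_log_self b1 _
  have J3 : ∀ m n, m < n → J m ≤ J n := fun m n h => Nat.log_mono_right (by omega)
  set i0 : Fin N := ⟨0, by omega⟩ with hi0
  set D : ℕ → Fin N → ℕ := fun n i => (n + 1) / (2 ^ (J n + 1)) ^ (i : ℕ) % 2 ^ (J n + 1) with hD
  set x : ℕ → EuclideanSpace ℝ (Fin N) := fun n => WithLp.toLp 2 fun i =>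
    (if i = i0 then A * r ^ J n else 0) + 2 * c * r ^ J n * (1 / 2) ^ J n * (D n i : ℝ) with hx
  have xi : ∀ n i, x n i =
    (if i = i0 then A * r ^ J n else 0) + 2 * c * r ^ J n * (1 / 2) ^ J n * (D n i : ℝ) :=
    fun n i => rfl
  -- radii
  have rad : ∀ n : ℕ, c * ((n : ℝ) + 1) ^ (-β) ≤ c * (r ^ J n * (1 / 2) ^ J n) := fun n => by
    refine mul_le_mul_of_nonneg_left ?_ c0.le
    have h1 : (2 : ℝ) ^ ((N : ℝ) * (J n : ℝ)) ≤ (n : ℝ) + 1 := by
      have h2 : (((2 ^ N) ^ J n : ℕ) : ℝ) ≤ ((n + 1 : ℕ) : ℝ) := by exact_mod_cast J1 n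
      push_cast at h2
      rwa [Real.rpow_mul (by norm_num), Real.rpow_natCast, Real.rpow_natCast]
    have h3 : r ^ J n * (1 / 2) ^ J n = ((2 : ℝ) ^ ((N : ℝ) * (J n : ℝ))) ^ (-β) := by
      rw [← mul_pow, hr, ← Real.rpow_mul (by norm_num),
        show (2 : ℝ) ^ (1 - N * β) * (1 / 2) = 2 ^ (-(N * β)) by
          rw [one_div, ← Real.rpow_neg_one, ← Real.rpow_add (by norm_num)]; congr 1; ring,
        ← Real.rpow_natCast, ← Real.rpow_mul (by norm_num)]
      congr 1; ring
    rw [h3, Real.rpow_neg (by positivity), Real.rpow_neg (by positivity)]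
    exact inv_anti₀ (by positivity) (Real.rpow_le_rpow (by positivity) h1 β0.le)
  have rj : ∀ j : ℕ, r ^ j * (1 / 2) ^ j ≤ r ^ j := fun j =>
    mul_le_of_le_one_right (by positivity) (pow_le_one₀ (by norm_num) (by norm_num))
  -- coordinates
  have Dle : ∀ n i, 2 * c * r ^ J n * (1 / 2) ^ J n * (D n i : ℝ) ≤ 4 * c * r ^ J n := fun n i => by
    have h1 : (D n i : ℝ) ≤ 2 ^ (J n + 1) := by
      have : D n i < 2 ^ (J n + 1) := Nat.mod_lt _ (by positivity)
      have : ((D n i : ℕ) : ℝ) ≤ ((2 ^ (J n + 1) : ℕ) : ℝ) := by exact_mod_cast this.le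
      simpa using this
    calc 2 * c * r ^ J n * (1 / 2) ^ J n * (D n i : ℝ)
        ≤ 2 * c * r ^ J n * (1 / 2) ^ J n * 2 ^ (J n + 1) :=
          mul_le_mul_of_nonneg_left h1 (by positivity)
      _ = 4 * c * r ^ J n := by
          rw [one_div, inv_pow, pow_succ]; field_simp; ring
  have nrm : ∀ n, ‖x n‖ ≤ N * ((A + 4 * c) * r ^ J n) := fun n => by
    have h0 : 0 ≤ (A + 4 * c) * r ^ J n := by positivity
    have h1 : ∀ i, ‖x n i‖ ≤ (A + 4 * c) * r ^ J n := fun i => by
      rw [xi]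
      have h2 := Dle n i
      have h3 : 0 ≤ 2 * c * r ^ J n * (1 / 2) ^ J n * (D n i : ℝ) := by positivity
      have h4 : 0 < A * r ^ J n := by positivity
      rw [Real.norm_eq_abs, abs_le]
      split_ifs <;> constructor <;> nlinarith
    have h5 : ‖x n‖ ^ 2 ≤ (N * ((A + 4 * c) * r ^ J n)) ^ 2 := by
      rw [EuclideanSpace.norm_sq_eq]
      calc ∑ i, ‖x n i‖ ^ 2 ≤ ∑ _i : Fin N, ((A + 4 * c) * r ^ J n) ^ 2 :=
            Finset.sum_le_sum fun i _ => pow_le_pow_left₀ (norm_nonneg _) (h1 i) 2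
        _ = N * ((A + 4 * c) * r ^ J n) ^ 2 := by simp
        _ ≤ (N * ((A + 4 * c) * r ^ J n)) ^ 2 := by
            rw [mul_pow (N : ℝ) ((A + 4 * c) * r ^ J n) 2]
            have h6 : (N : ℝ) ≤ (N : ℝ) ^ 2 := by nlinarith
            exact mul_le_mul_of_nonneg_right h6 (sq_nonneg _)
    exact le_of_sq_le_sq h5 (by positivity)
  have tot : ∀ n : ℕ, ‖x n‖ + c * ((n : ℝ) + 1) ^ (-β) ≤ 1 / 2 * r ^ J n := fun n => by
    have h1 := nrm n
    have h2 := rad n
    have h3 := mul_le_mul_of_nonneg_left (rj (J n)) c0.le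
    have h4 : N * ((A + 4 * c) * r ^ J n) + c * r ^ J n =
        (N * A + 4 * (N * c) + c) * r ^ J n := by ring
    have h5 : N * A = 1 / 4 := by rw [hA]; field_simp
    have h6 : 6 * (N * c) ≤ 1 / 4 := by nlinarith
    have h7 : 2 * c ≤ N * c := by nlinarith
    have h8 : (N * A + 4 * (N * c) + c) * r ^ J n ≤ 1 / 2 * r ^ J n :=
      mul_le_mul_of_nonneg_right (by linarith) (by positivity)
    linarith
  have cd : ∀ m n i, |x m i - x n i| ≤ dist (x m) (x n) := fun m n i => by
    rw [dist_eq_norm, ← Real.norm_eq_abs]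
    exact PiLp.norm_apply_le (x m - x n) i
  refine ⟨c, x, c0, fun m n h => ?_, fun n => ?_, fun δ hδ => ?_⟩
  · have r2 := rad m
    have r3 := rad n
    rcases (J3 m n h).eq_or_lt with e | e
    · -- same stage
      have hne : ∃ i : Fin N, D m i ≠ D n i := by
        by_contra hcon
        push Not at hcon
        have hm' := J2 m
        have hn' := J2 n
        rw [← pow_mul, mul_comm, pow_mul] at hm' hn'
        have := dig_inj (2 ^ (J n + 1)) N (m + 1) (n + 1) (by rw [← e]; exact hm') hn'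
          fun i hi => by
            have := hcon ⟨i, hi⟩
            simp only [hD] at this
            rw [← e] at this ⊢
            exact this
        omega
      obtain ⟨i, hi⟩ := hne
      refine le_trans ?_ (cd m n i)
      rw [xi, xi, ← e]
      have h1 : (1 : ℝ) ≤ |(D m i : ℝ) - (D n i : ℝ)| := by
        have : (1 : ℤ) ≤ |(D m i : ℤ) - (D n i : ℤ)| := Int.one_le_abs (by omega)
        exact_mod_cast this
      have h2 : (if i = i0 then A * r ^ J m else 0) + 2 * c * r ^ J m * (1 / 2) ^ J m * (D m i : ℝ) -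
          ((if i = i0 then A * r ^ J m else 0) + 2 * c * r ^ J m * (1 / 2) ^ J m * (D n i : ℝ)) =
          2 * c * r ^ J m * (1 / 2) ^ J m * ((D m i : ℝ) - (D n i : ℝ)) := by ring
      rw [h2, abs_mul, abs_of_pos (by positivity : 0 < 2 * c * r ^ J m * (1 / 2) ^ J m)]
      rw [← e] at r3
      have h3 : 0 < 2 * c * r ^ J m * (1 / 2) ^ J m := by positivity
      nlinarith
    · -- different stages
      refine le_trans ?_ (cd m n i0)
      rw [xi, xi, if_pos rfl, if_pos rfl]
      have h1 := Dle n i0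
      have h2 : 0 ≤ 2 * c * r ^ J m * (1 / 2) ^ J m * (D m i0 : ℝ) := by positivity
      have h3 : r ^ J n ≤ r ^ (J m + 1) := pow_le_pow_of_le_one r0.le r1.le e
      rw [pow_succ] at h3
      have h4 : 0 < r ^ J m := by positivity
      have h5 := mul_le_mul_of_nonneg_left (rj (J m)) c0.le
      have h6 := mul_le_mul_of_nonneg_left (rj (J n)) c0.le
      refine le_trans ?_ (le_abs_self _)
      have h7 : (A + 5 * c) * r ^ J n ≤ (A + 5 * c) * (r ^ J m * r) :=
        mul_le_mul_of_nonneg_left h3 (by positivity)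
      have h8 : A * r ^ J m - A * (r ^ J m * r) = 6 * c * r ^ J m := by rw [cA]; ring
      have h9 : c * (r ^ J m * r) ≤ c * r ^ J m :=
        mul_le_mul_of_nonneg_left (mul_le_of_le_one_right h4.le r1.le) c0.le
      nlinarith
  · have h1 := tot n
    have h2 : r ^ J n ≤ 1 := pow_le_one₀ r0.le r1.le
    linarith
  · obtain ⟨j, hj⟩ := exists_pow_lt_of_lt_one hδ r1
    refine ⟨(2 ^ N) ^ j, fun n hn => ?_⟩
    have h1 : j ≤ J n := Nat.le_log_of_pow_le b1 (by omega)
    have h2 : r ^ J n ≤ r ^ j := pow_le_pow_of_le_one r0.le r1.le h1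
    have h3 := tot n
    have h4 : 0 < r ^ J n := by positivity
    linarith

end Pool.Agent.H12.LS
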