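import Pool.Graph.R_pool_sql_team_ae5b0c61.H92.Q6

open MeasureTheory Filter Topology Set Metric
open scoped ENNReal NNReal

namespace Pool.Agent.H12.LS

open Pool.Agent.H92.Q

variable {N : ℕ}

/-- A1: averages over the cubes of a grid: `n ^ N` odd continuous functionals. -/
def StA1 : Prop := ∀ (N : ℕ), 2 ≤ N → ∀ Ω : Set (E N), Bornology.IsBounded Ω →
  ∃ C : ℝ, 0 < C ∧ ∀ n : ℕ, 1 ≤ n → ∃ L : P N → EuclideanSpace ℝ (Fin (n ^ N)),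
    Continuous L ∧ (∀ p, L (-p) = -L p) ∧
    ∀ p ∈ H10 Ω, L p = 0 → ‖p.1‖ ≤ C / n * ‖p.2‖

/-- A2: interpolation. -/
def StA2 : Prop := ∀ (N : ℕ), 2 ≤ N → ∀ q : ℝ, 2 < q → ((N : ℝ) - 2) * q < 2 * N →
  ∀ Ω : Set (E N), Bornology.IsBounded Ω →
  ∃ c a : ℝ, 0 < c ∧ 0 < a ∧ ∀ p ∈ Sph Ω q, ∀ d : ℝ, 0 < d → ‖p.1‖ ≤ d * ‖p.2‖ →
    c * d⁻¹ ^ a ≤ ‖p.2‖ ^ 2

/-- A3: the Lusternik-Schnirelmann values grow at least like a power. -/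
def StA3 : Prop := ∀ (N : ℕ), 2 ≤ N → ∀ q : ℝ, 2 < q → ((N : ℝ) - 2) * q < 2 * N →
  ∀ Ω : Set (E N), Bornology.IsBounded Ω →
  ∃ c a : ℝ, 0 < c ∧ 0 < a ∧ ∀ k : ℕ, 1 ≤ k → ENNReal.ofReal (c * (k : ℝ) ^ a) ≤ LS Ω q k

/-- the weights -/
noncomputable def w (s n : ℕ) : ℝ := ((n : ℝ) + 1) ^ s + (1 / 2) ^ (n + 2)

/-- C: counting. -/
def StC : Prop := ∀ (s : ℕ) (A r c a : ℝ) (L : ℕ → ℝ≥0∞), 0 < A → 0 < r → 0 < c → 0 < a →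
  (∀ k : ℕ, 1 ≤ k → ENNReal.ofReal (c * (k : ℝ) ^ a) ≤ L k) →
  ∃ b L0 : ℝ, 0 < b ∧ ∀ Λ : ℝ, L0 ≤ Λ → ∃ T : Finset ℝ,
    (∀ l ∈ T, 0 < l ∧ l ≤ Λ ∧ (∃ S : Finset ℕ, S.Nonempty ∧ l = A * (∑ n ∈ S, w s n) ^ r) ∧
      ∀ k : ℕ, 1 ≤ k → L k ≠ ENNReal.ofReal l) ∧ Real.exp (Λ ^ b) ≤ (T.card : ℝ)

/-- B: the chain of balls. -/
def StB : Prop := ∀ (N : ℕ), 2 ≤ N → ∀ q : ℝ, 2 < q → ((N : ℝ) - 2) * q < 2 * N →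
  ∃ (Ω : Set (E N)) (s : ℕ) (A : ℝ), IsOpen Ω ∧ Bornology.IsBounded Ω ∧ 0 < A ∧
    ∀ S : Finset ℕ, S.Nonempty → A * (∑ n ∈ S, w s n) ^ ((q - 2) / q) ∈ Spec Ω q

end Pool.Agent.H12.LS
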