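import Pool.Agent.H12.LS.Stub

open MeasureTheory Filter Topology Set Metric
open scoped ENNReal NNReal

namespace Pool.Agent.H12.LS

open Pool.Agent.H92.Q

variable {N : ℕ}

/-- a nonnegative weak solution of `-Δu = |u|^(q-2) u` with `∫|u|^q = m` -/
def Sol (A : Set (E N)) (q m : ℝ) (p : P N) : Prop :=
  p ∈ H10 A ∧ (∀ φ, Test A φ →
    ∫ x, inner ℝ (p.2 x) (gradient φ x) = ∫ x, |p.1 x| ^ (q - 2) * p.1 x * φ x) ∧
  ∫ x, |p.1 x| ^ q = m ∧ ∀ᵐ x, 0 ≤ p.1 x

theorem Sol.zero (A : Set (E N)) {q : ℝ} (hq : 2 < q) : Sol A q 0 (0 : P N) := by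
  have e1 : ((0 : P N).1 : E N → ℝ) =ᵐ[volume] 0 := Lp.coeFn_zero _ _ _
  have e2 : ((0 : P N).2 : E N → E N) =ᵐ[volume] 0 := Lp.coeFn_zero _ _ _
  refine ⟨?_, fun φ hφ => ?_, ?_, by filter_upwards [e1] with x hx; rw [hx]; simp⟩
  · exact (TS A).topologicalClosure.zero_mem
  · rw [integral_congr_ae (g := fun _ => (0 : ℝ)) (by filter_upwards [e2] with x hx; rw [hx]; simp),
      integral_congr_ae (f := fun x => |(0 : P N).1 x| ^ (q - 2) * (0 : P N).1 x * φ x)
        (g := fun _ => (0 : ℝ)) (by filter_upwards [e1] with x hx; rw [hx]; simp)]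
  · rw [integral_congr_ae (g := fun _ => (0 : ℝ)) (by
      filter_upwards [e1] with x hx; rw [hx]; simp [Real.zero_rpow (by linarith : q ≠ 0)])]
    simp

theorem Sol.cast {A : Set (E N)} {q m m' : ℝ} {p : P N} (h : Sol A q m p) (e : m = m') :
    Sol A q m' p := e ▸ h

/-- inner products with test functions -/
theorem inner_grad {Ω : Set (E N)} {φ : E N → ℝ} (h : Test Ω φ) (p : P N) :
    ∫ x, inner ℝ (p.2 x) (gradient φ x) = inner ℝ p.2 (tp φ).2 := (inner_tp h p).symm

/-- a test function of `B` is orthogonal to `H10 A` if `A` and `B` are disjoint -/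
theorem orth {A B : Set (E N)} (hd : Disjoint A B) {φ : E N → ℝ} (h : Test B φ) {p : P N}
    (hp : p ∈ H10 A) : inner ℝ p.2 (tp φ).2 = 0 := by
  have hc : IsClosed {p : P N | inner ℝ p.2 (tp φ).2 = (0 : ℝ)} :=
    isClosed_eq (by fun_prop) continuous_const
  refine closure_minimal (s := TP A) (t := {p : P N | inner ℝ p.2 (tp φ).2 = (0 : ℝ)}) ?_ hc hp
  rintro r ⟨ψ, hψ, e1, e2⟩
  show inner ℝ r.2 (tp φ).2 = (0 : ℝ)
  rw [← inner_grad h, integral_congr_ae (g := fun _ => (0 : ℝ))]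
  · simp
  filter_upwards [e2] with x hx
  rw [hx]
  by_cases h1 : x ∈ A
  · have : x ∉ B := fun h2 => hd.ne_of_mem h1 h2 rfl
    have : gradient φ x = 0 := by
      by_contra h3
      exact this (h.2.2 (supp_grad φ h3))
    rw [this, inner_zero_right]
  · have : gradient ψ x = 0 := by
      by_contra h3
      exact h1 (hψ.2.2 (supp_grad ψ h3))
    rw [this, inner_zero_left]

theorem test_split {A B : Set (E N)} (hA : IsOpen A) (hB : IsOpen B) (hd : Disjoint A B)
    {φ : E N → ℝ} (h : Test (A ∪ B) φ) : Test A (A.indicator φ) ∧ Test B (B.indicator φ) ∧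
      ∀ x, φ x = A.indicator φ x + B.indicator φ x := by
  refine ⟨(cut_ind hA hB hd subset_rfl subset_rfl h).1,
    (cut_ind hB hA hd.symm subset_rfl subset_rfl (by rwa [union_comm])).1, fun x => ?_⟩
  by_cases h1 : x ∈ A
  · have : x ∉ B := fun h2 => hd.ne_of_mem h1 h2 rfl
    simp [h1, this]
  · by_cases h2 : x ∈ B
    · simp [h1, h2]
    · have : φ x = 0 := h.zero_off (by simp [h1, h2])
      simp [h1, h2, this]

theorem Sol.add (hN : 2 ≤ N) {q : ℝ} (hq : 2 < q) (hqN : ((N : ℝ) - 2) * q < 2 * N)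
    {A B : Set (E N)} (hA : IsOpen A) (hB : IsOpen B)
    (bA : Bornology.IsBounded (A ∪ B)) (hd : Disjoint A B) {m m' : ℝ} {p r : P N}
    (hp : Sol A q m p) (hr : Sol B q m' r) : Sol (A ∪ B) q (m + m') (p + r) := by
  obtain ⟨C, hC⟩ := exists_sob hN bA (by linarith : 1 ≤ q) hqN.le
  have ip : p ∈ H10 (A ∪ B) := H10.mono subset_union_left hp.1
  have ir : r ∈ H10 (A ∪ B) := H10.mono subset_union_right hr.1
  have mp := hC.memLp ip
  have mr := hC.memLp ir
  have z1 := H10.zero_off hA.measurableSet hp.1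
  have z2 := H10.zero_off hB.measurableSet hr.1
  have e1 : ((p + r).1 : E N → ℝ) =ᵐ[volume] fun x => p.1 x + r.1 x := Lp.coeFn_add _ _
  have dis : ∀ᵐ x, p.1 x = 0 ∨ r.1 x = 0 := by
    filter_upwards [z1, z2] with x h1 h2
    by_cases h : x ∈ A
    · exact Or.inr (h2 fun h' => hd.ne_of_mem h h' rfl)
    · exact Or.inl (h1 h)
  refine ⟨H10.add ip ir, fun φ hφ => ?_, ?_, ?_⟩
  · obtain ⟨tA, tB, hs⟩ := test_split hA hB hd hφ
    have g1 : (tp φ).2 = (tp (A.indicator φ)).2 + (tp (B.indicator φ)).2 := by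
      apply Lp.ext
      refine hφ.tp2.trans ?_
      filter_upwards [Lp.coeFn_add (tp (A.indicator φ)).2 (tp (B.indicator φ)).2, tA.tp2, tB.tp2]
        with x a b c
      rw [a, Pi.add_apply, b, c, ← grad_add (tA.diff x) (tB.diff x)]
      congr 1
      funext y
      exact hs y
    have l1 : ∫ x, inner ℝ ((p + r).2 x) (gradient φ x) =
        (∫ x, |p.1 x| ^ (q - 2) * p.1 x * A.indicator φ x) +
          ∫ x, |r.1 x| ^ (q - 2) * r.1 x * B.indicator φ x := by
      rw [inner_grad hφ, Prod.snd_add, inner_add_left, g1, inner_add_right, inner_add_right,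
        orth hd tB hp.1, orth hd.symm tA hr.1, add_zero, zero_add, ← hp.2.1 _ tA, ← hr.2.1 _ tB,
        inner_grad tA, inner_grad tB]
    rw [l1]
    have i1 := (deriv_mass (by linarith : 1 < q) mp (tA.memLp (ENNReal.ofReal q))).1
    have i2 := (deriv_mass (by linarith : 1 < q) mr (tB.memLp (ENNReal.ofReal q))).1
    rw [← integral_add i1 i2]
    refine integral_congr_ae ?_
    filter_upwards [e1, z1, z2] with x a b c
    rw [a, hs x]
    by_cases h : x ∈ A
    · have h' : x ∉ B := fun h' => hd.ne_of_mem h h' rfl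
      simp [c h', h, h']
    · by_cases h' : x ∈ B
      · simp [b h, h, h']
      · simp [b h, c h']
  · rw [← hp.2.2.1, ← hr.2.2.1]
    have hq0 : ENNReal.ofReal q ≠ 0 := by simp; linarith
    have hi : ∀ {f : E N → ℝ}, MemLp f (ENNReal.ofReal q) volume → Integrable fun x => |f x| ^ q :=
      fun hf => by
        simpa [ENNReal.toReal_ofReal (by linarith : 0 ≤ q)] using
          hf.integrable_norm_rpow hq0 ENNReal.ofReal_ne_top
    rw [← integral_add (hi mp) (hi mr)]
    refine integral_congr_ae ?_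
    filter_upwards [e1, dis] with x a b
    rw [a]
    have h0 : (0 : ℝ) ^ q = 0 := Real.zero_rpow (by linarith)
    rcases b with b | b <;> simp [b, h0]
  · filter_upwards [e1, hp.2.2.2, hr.2.2.2] with x a b c
    rw [a]; linarith

theorem Sol.ext (hN : 2 ≤ N) {q : ℝ} (hq : 2 < q) (hqN : ((N : ℝ) - 2) * q < 2 * N)
    {A B : Set (E N)} (hA : IsOpen A) (hB : IsOpen B)
    (bA : Bornology.IsBounded (A ∪ B)) (hd : Disjoint A B) {m : ℝ} {p : P N}
    (hp : Sol A q m p) : Sol (A ∪ B) q m p := by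
  have := Sol.add hN hq hqN hA hB bA hd hp (Sol.zero B hq)
  rwa [add_zero, add_zero] at this

theorem Sol.spec (hN : 2 ≤ N) {q : ℝ} (hq : 2 < q) (hqN : ((N : ℝ) - 2) * q < 2 * N)
    {A : Set (E N)} (bA : Bornology.IsBounded A) {m : ℝ} (hm : 0 < m) {p : P N}
    (hp : Sol A q m p) : IsEigen A q (m ^ ((q - 2) / q)) p := by
  obtain ⟨C, hC⟩ := exists_sob hN bA (by linarith : 1 ≤ q) hqN.le
  have hq0 : q ≠ 0 := by linarith
  have e : (eLpNorm p.1 (ENNReal.ofReal q) volume).toReal = m ^ (1 / q) := by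
    have h1 := hC.nq_pow hp.1
    rw [hp.2.2.1, nq, nf_univ] at h1
    rw [← h1, ← Real.rpow_mul ENNReal.toReal_nonneg, mul_one_div, div_self hq0, Real.rpow_one]
  refine ⟨hp.1, fun h0 => ?_, fun φ hφ => ?_⟩
  · have h1 := hp.2.2.1
    rw [integral_congr_ae (g := fun _ => (0 : ℝ)) (by
      rw [h0]
      filter_upwards [Lp.coeFn_zero ℝ 2 (volume : Measure (E N))] with x hx
      rw [hx]; simp [Real.zero_rpow hq0])] at h1
    simp at h1
    linarith
  · rw [hp.2.1 φ hφ, e, ← Real.rpow_mul hm.le, ← Real.rpow_add hm,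
      show (q - 2) / q + 1 / q * (2 - q) = 0 by field_simp; ring, Real.rpow_zero, one_mul]

/-- the ground state gives a solution -/
theorem ground (hN : 2 ≤ N) {q : ℝ} (hq : 2 < q) (hqN : ((N : ℝ) - 2) * q < 2 * N)
    {A : Set (E N)} (hA : IsOpen A) (bA : Bornology.IsBounded A) (nA : A.Nonempty) :
    ∃ p : P N, Sol A q (lam1 A q ^ (q / (q - 2))) p := by
  obtain ⟨C, hC⟩ := exists_sob hN bA (by linarith : 1 ≤ q) hqN.le
  obtain ⟨l0, lA, p0, mp0, np0, ep0⟩ := exists_min hN hA bA nA (by linarith : 1 ≤ q) hqN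
  obtain ⟨p, mp', ap, lp⟩ := abs_mem hN hA bA mp0
  have mp : p ∈ H10 A := closure_mono (TPn_sub A) mp'
  have pos : ∀ᵐ x, 0 ≤ p.1 x := by filter_upwards [ap] with x hx; rw [hx]; positivity
  have np : nq q p = 1 := by
    rw [← np0, nq, nf_univ, nq, nf_univ, eLpNorm_congr_ae ap]
    congr 1
    exact eLpNorm_congr_norm_ae (Eventually.of_forall fun x => by simp)
  have ep : ‖p.2‖ ^ 2 = lam1 A q := by
    have := lA p mp
    rw [np] at this
    linarith
  have he : IsEigen A q (‖p.2‖ ^ 2) p := eigen_of_min hC (by linarith) (Φ := fun _ => 1)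
    continuousOn_const mp np one_pos fun r hr nr _ => by
      have := lA r hr
      rw [nr] at this
      rw [ep]; linarith
  set l := lam1 A q with hl
  set c : ℝ := l ^ (1 / (q - 2)) with hc
  have c0 : 0 < c := by positivity
  have cq : c ^ (q - 2) = l := by
    rw [hc, ← Real.rpow_mul l0.le, one_div_mul_cancel (by linarith), Real.rpow_one]
  have e1 : ((c • p).1 : E N → ℝ) =ᵐ[volume] fun x => c * p.1 x := by
    filter_upwards [Lp.coeFn_smul c p.1] with x hx
    rw [Prod.smul_fst, hx]; simp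
  have n1 : (eLpNorm p.1 (ENNReal.ofReal q) volume).toReal = 1 := by rw [← nf_univ]; exact np
  refine ⟨c • p, H10.smul mp c, fun φ hφ => ?_, ?_, by
    filter_upwards [e1, pos] with x hx h; rw [hx]; positivity⟩
  · have h1 := he.2.2 φ hφ
    rw [n1, Real.one_rpow, mul_one, ep] at h1
    rw [inner_grad hφ, Prod.smul_snd, inner_smul_left, ← inner_grad hφ, h1]
    rw [integral_congr_ae (f := fun x => |(c • p).1 x| ^ (q - 2) * (c • p).1 x * φ x)
      (g := fun x => (c * l) * (|p.1 x| ^ (q - 2) * p.1 x * φ x)) (by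
        filter_upwards [e1] with x hx
        rw [hx, abs_mul, abs_of_pos c0, Real.mul_rpow c0.le (abs_nonneg _), cq]; ring),
      integral_const_mul]
    simp; ring
  · have h2 := hC.nq_pow mp
    rw [np, Real.one_rpow] at h2
    rw [integral_congr_ae (g := fun x => c ^ q * |p.1 x| ^ q) (by
      filter_upwards [e1] with x hx
      rw [hx, abs_mul, abs_of_pos c0, Real.mul_rpow c0.le (abs_nonneg _)]), integral_const_mul,
      ← h2, mul_one, hc, ← Real.rpow_mul l0.le]
    congr 1; ring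

end Pool.Agent.H12.LS
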